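import Pool.Agent.W705.BorrGroup

set_option autoImplicit false

/-!
# Cyclic chains of order automorphisms without common fixed points do not exist

`X` is a complete linear order, `c i`, `D i`, `f i` (`i : ZMod n`) are order automorphisms of
`X` with

* `c i = c (i+1) * (D (i+1))⁻¹ * c (i+1) * D (i+1)`,
* `D (i+1) = f i * D i * (c i)⁻¹ * D i`,
* every fixed point of `c i` is a fixed point of `f i`.

Then all `c i` and all `D i` are trivial.
-/

namespace Pool.Agent.TH821.Chain

open Pool.Agent.W705.Borr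

variable {X : Type*} [CompleteLinearOrder X] {n : ℕ}

/-- The relations, written as identities of the action. -/
structure Sys (c D f : ZMod n → X ≃o X) : Prop where
  A : ∀ i v, c (i + 1) ((D (i + 1)).symm (c (i + 1) (D (i + 1) v))) = c i v
  B : ∀ i v, f i (D i ((c i).symm (D i v))) = D (i + 1) v
  F : ∀ i v, c i v = v → f i v = v

theorem Sys.dual {c D f : ZMod n → X ≃o X} (h : Sys c D f) :
    Sys (X := Xᵒᵈ) (fun i => (c i).dual) (fun i => (D i).dual) (fun i => (f i).dual) := by
  refine ⟨?_, ?_, ?_⟩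
  · intro i v; exact h.A i v
  · intro i v; exact h.B i v
  · intro i v hv; exact h.F i v hv

variable {c D f : ZMod n → X ≃o X}

theorem symm_fix {g : X ≃o X} {v : X} (h : g v = v) : g.symm v = v := by
  have := congrArg g.symm h
  rw [g.symm_apply_apply] at this
  exact this.symm

theorem lt_symm_iff (g : X ≃o X) {u v : X} : u < g.symm v ↔ g u < v := by
  rw [← g.lt_iff_lt, g.apply_symm_apply]

theorem symm_lt_iff' (g : X ≃o X) {u v : X} : g.symm u < v ↔ u < g v := by
  rw [← g.lt_iff_lt, g.apply_symm_apply]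

/-- The product relation at a fixed point, and the next fixed point. -/
theorem exists_next (h : Sys c D f) {i : ZMod n} {t : X} (hc : c i t = t)
    (hD : t < D (i + 1) t) : ∃ p, t ≤ p ∧ c (i + 1) p = p ∧ p < D (i + 1) t := by
  set a := c (i + 1) with ha
  set d := D (i + 1) with hd
  have e : a (d.symm (a (d t))) = t := by
    have := h.A i t
    rw [hc] at this; exact this
  have e' : d.symm (a (d t)) = a.symm t := by
    rw [← a.symm_apply_apply (d.symm (a (d t))), e]
  rcases lt_trichotomy (a t) t with h1 | h1 | h1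
  · -- `a` moves `t` down, hence `d t` up
    have h2 : t < a.symm t := (lt_symm_iff a).mpr h1
    rw [← e', lt_symm_iff] at h2
    obtain ⟨p, p1, p2, p3⟩ := ivt a (w := t) (s := d t) hD.le h1.le h2
    exact ⟨p, p1, p3, p2⟩
  · exact ⟨t, le_rfl, h1, hD⟩
  · -- `a` moves `t` up, hence `d t` down
    have h2 : a.symm t < t := (symm_lt_iff' a).mpr h1
    rw [← e', symm_lt_iff'] at h2
    obtain ⟨p, p1, p2, p3⟩ := ivt' a (v := d t) (s := t) hD.le h2.le h1
    refine ⟨p, p1.le, p3, lt_of_le_of_ne p2 ?_⟩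
    intro hp
    rw [← hp, p3] at h2
    exact absurd h2 (lt_irrefl _)

theorem D_next_up (h : Sys c D f) {i : ZMod n} {t : X} (hc : c i t = t)
    (hD : t < D i t) : t < D (i + 1) t := by
  have h1 : t < (c i).symm (D i t) := by
    rw [lt_symm_iff, hc]; exact hD
  have h2 : t < D i ((c i).symm (D i t)) := lt_trans hD ((D i).lt_iff_lt.mpr h1)
  have h3 := (f i).lt_iff_lt.mpr h2
  rw [h.F i t hc, h.B] at h3
  exact h3

theorem step (h : Sys c D f) {i : ZMod n} {t : X} (hc : c i t = t)
    (hD : t < D i t) :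
    ∃ p, t ≤ p ∧ c (i + 1) p = p ∧ p < D (i + 1) p ∧
      (D (i + 1 + 1)).symm p < (D (i + 1)).symm t := by
  have h1 := D_next_up h hc hD
  obtain ⟨p, p1, p2, p3⟩ := exists_next h hc h1
  refine ⟨p, p1, p2, lt_of_lt_of_le p3 ((D (i + 1)).le_iff_le.mpr p1), ?_⟩
  set e := (D (i + 1)).symm p with he
  have he' : D (i + 1) e = p := by rw [he]; simp
  have hlt : e < t := by rw [he, symm_lt_iff']; exact p3
  -- `c (i+1) e = c i e`
  have h2 : c (i + 1) e = c i e := by
    have := h.A i e
    rw [he', p2, ← he] at this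
    exact this
  have h3 : c (i + 1) e < t := by
    rw [h2, ← hc]; exact (c i).lt_iff_lt.mpr hlt
  -- `D (i+2)⁻¹ p = D (i+1)⁻¹ c (i+1) e`
  have h4 : D (i + 1 + 1) ((D (i + 1)).symm (c (i + 1) e)) = p := by
    rw [← h.B, (D (i + 1)).apply_symm_apply, (c (i + 1)).symm_apply_apply, he']
    exact h.F _ _ p2
  have h5 : (D (i + 1 + 1)).symm p = (D (i + 1)).symm (c (i + 1) e) := by
    rw [← h4]; simp
  rw [h5]
  exact (D (i + 1)).symm.lt_iff_lt.mpr h3

theorem chain (h : Sys c D f) {i : ZMod n} {t : X} (hc : c i t = t) (hD : t < D i t) (m : ℕ) :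
    ∃ p, t ≤ p ∧ c (i + m) p = p ∧ p < D (i + m) p ∧
      (D (i + m + 1)).symm p ≤ (D (i + 1)).symm t ∧
      (0 < m → (D (i + m + 1)).symm p < (D (i + 1)).symm t) := by
  induction m with
  | zero =>
    refine ⟨t, le_rfl, by simpa using hc, by simpa using hD, ?_, fun h0 => absurd h0 (lt_irrefl _)⟩
    have e2 : i + ((0 : ℕ) : ZMod n) + 1 = i + 1 := by push_cast; ring
    rw [e2]
  | succ m ih =>
    obtain ⟨p, p1, p2, p3, p4, -⟩ := ih
    obtain ⟨q, q1, q2, q3, q4⟩ := step h p2 p3
    have e : i + (m : ZMod n) + 1 = i + ((m + 1 : ℕ) : ZMod n) := by push_cast; ring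
    rw [e] at q2 q3 q4 p4
    have := lt_of_lt_of_le q4 p4
    exact ⟨q, p1.trans q1, q2, q3, this.le, fun _ => this⟩

theorem not_up (h : Sys c D f) (hn : 0 < n) {i : ZMod n} {t : X} (hc : c i t = t) :
    ¬ t < D i t := by
  intro hD
  obtain ⟨p, p1, -, -, -, p4⟩ := chain h hc hD n
  have h1 := p4 hn
  rw [ZMod.natCast_self, add_zero] at h1
  exact absurd ((D (i + 1)).symm.lt_iff_lt.mp h1) (not_lt.mpr p1)

/-- Fixed points of `c i` are fixed points of `D i`. -/
theorem D_fix (h : Sys c D f) (hn : 0 < n) {i : ZMod n} {t : X} (hc : c i t = t) :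
    D i t = t := by
  rcases lt_trichotomy (D i t) t with h1 | h1 | h1
  · exact absurd h1 (not_up (X := Xᵒᵈ) h.dual hn (i := i) (t := t) hc)
  · exact h1
  · exact absurd h1 (not_up h hn hc)

theorem fix_succ (h : Sys c D f) (hn : 0 < n) {i : ZMod n} {t : X} (hc : c i t = t) :
    c (i + 1) t = t := by
  have hD := D_fix h hn hc
  have h1 : D (i + 1) t = t := by
    rw [← h.B, hD, symm_fix hc, hD]
    exact h.F i t hc
  have h2 := h.A i t
  rw [h1, hc] at h2
  rcases lt_trichotomy (c (i + 1) t) t with h3 | h3 | h3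
  · have h4 : (D (i + 1)).symm (c (i + 1) t) < t := by
      rw [symm_lt_iff', h1]; exact h3
    have h5 := (c (i + 1)).lt_iff_lt.mpr h4
    rw [h2] at h5
    exact absurd (h5.trans h3) (lt_irrefl _)
  · exact h3
  · have h4 : t < (D (i + 1)).symm (c (i + 1) t) := by
      rw [lt_symm_iff, h1]; exact h3
    have h5 := (c (i + 1)).lt_iff_lt.mpr h4
    rw [h2] at h5
    exact absurd (h3.trans h5) (lt_irrefl _)

theorem fix_add (h : Sys c D f) (hn : 0 < n) {i : ZMod n} {t : X} (hc : c i t = t) (m : ℕ) :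
    c (i + m) t = t := by
  induction m with
  | zero => simpa using hc
  | succ m ih =>
    have := fix_succ h hn ih
    have e : i + (m : ZMod n) + 1 = i + ((m + 1 : ℕ) : ZMod n) := by push_cast; ring
    rwa [e] at this

theorem fix_all (h : Sys c D f) (hn : 0 < n) {i : ZMod n} {t : X} (hc : c i t = t) (j : ZMod n) :
    c j t = t ∧ D j t = t := by
  have : NeZero n := ⟨hn.ne'⟩
  have e : i + ((j - i).val : ZMod n) = j := by
    rw [ZMod.natCast_zmod_val]; ring
  have h1 := fix_add h hn hc (j - i).val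
  rw [e] at h1
  exact ⟨h1, D_fix h hn h1⟩

/-- If `c i` moves `t` up then it moves `D i t` up. -/
theorem up_D (h : Sys c D f) (hn : 0 < n) {i : ZMod n} {t : X} (hc : t < c i t) :
    D i t < c i (D i t) := by
  by_contra hcon
  rw [not_lt] at hcon
  have key : ∀ p, c i p = p → D i p = p := fun p hp => (fix_all h hn hp i).2
  have hne : ¬ c i (D i t) = D i t := by
    intro he
    have h1 := key _ he
    have h2 := (D i).injective h1
    rw [h2] at he
    rw [he] at hc
    exact absurd hc (lt_irrefl _)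
  rcases le_total t (D i t) with h1 | h1
  · obtain ⟨p, p1, p2, p3⟩ := ivt' (c i) h1 hcon hc
    have h2 := key p p3
    rcases lt_or_eq_of_le p2 with h3 | h3
    · have h4 := (D i).lt_iff_lt.mpr p1
      rw [h2] at h4
      exact absurd (h3.trans h4) (lt_irrefl _)
    · rw [h3] at p3; exact hne p3
  · obtain ⟨p, p1, p2, p3⟩ := ivt (c i) h1 hcon hc
    have h2 := key p p3
    rcases lt_or_eq_of_le p1 with h3 | h3
    · have h4 := (D i).lt_iff_lt.mpr p2
      rw [h2] at h4
      exact absurd (h4.trans h3) (lt_irrefl _)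
    · rw [← h3] at p3; exact hne p3

theorem up_pred (h : Sys c D f) (hn : 0 < n) {i : ZMod n} {t : X} (hc : t < c (i + 1) t) :
    c (i + 1) t < c i t := by
  have h1 := up_D h hn hc
  have h2 : t < (D (i + 1)).symm (c (i + 1) (D (i + 1) t)) := by
    rw [lt_symm_iff]; exact h1
  have h3 := (c (i + 1)).lt_iff_lt.mpr h2
  rw [h.A] at h3
  exact h3

theorem up_iter (h : Sys c D f) (hn : 0 < n) {i : ZMod n} {t : X} (hc : t < c i t) (m : ℕ) :
    c i t ≤ c (i - m) t ∧ (0 < m → c i t < c (i - m) t) := by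
  induction m with
  | zero => exact ⟨by simp, fun h0 => absurd h0 (lt_irrefl _)⟩
  | succ m ih =>
    have e : i - ((m + 1 : ℕ) : ZMod n) + 1 = i - m := by push_cast; ring
    have h1 : t < c (i - ((m + 1 : ℕ) : ZMod n) + 1) t := by
      rw [e]; exact lt_of_lt_of_le hc ih.1
    have h2 := up_pred h hn h1
    rw [e] at h2
    have h3 := lt_of_le_of_lt ih.1 h2
    exact ⟨h3.le, fun _ => h3⟩

theorem c_not_up (h : Sys c D f) (hn : 0 < n) (i : ZMod n) (t : X) : ¬ t < c i t := by
  intro hc
  have h1 := (up_iter h hn hc n).2 hn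
  rw [ZMod.natCast_self, sub_zero] at h1
  exact absurd h1 (lt_irrefl _)

/-- The main statement: everything acts trivially. -/
theorem trivial (h : Sys c D f) (hn : 0 < n) (i : ZMod n) (t : X) : c i t = t ∧ D i t = t := by
  have hc : c i t = t := by
    rcases lt_trichotomy (c i t) t with h1 | h1 | h1
    · exact absurd h1 (c_not_up (X := Xᵒᵈ) h.dual hn i t)
    · exact h1
    · exact absurd h1 (c_not_up h hn i t)
  exact fix_all h hn hc i

end Pool.Agent.TH821.Chain
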