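import Pool.Agent.TH821.ChainAct

set_option autoImplicit false

/-!
# Left-ordered groups and the chain relations
-/

namespace Pool.Agent.TH821.Chain

open Pool.Agent.W705.Borr

section act
variable {H : Type*} [Group H] [LinearOrder H] (hinv : ∀ a b c : H, a ≤ b ↔ c * a ≤ c * b)

theorem act_inv (g : H) (v : LowerSet H) : act hinv g⁻¹ v = (act hinv g).symm v := by
  have h1 : act hinv g (act hinv g⁻¹ v) = v := by
    rw [← act_mul, mul_inv_cancel, act_one]
  rw [← (act hinv g).symm_apply_apply (act hinv g⁻¹ v), h1]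

/-- The stabilizer of a lower set. -/
noncomputable def stab (v : LowerSet H) : Subgroup H where
  carrier := {g | act hinv g v = v}
  mul_mem' := by
    intro a b ha hb
    show act hinv (a * b) v = v
    rw [act_mul, show act hinv b v = v from hb]; exact ha
  one_mem' := act_one hinv v
  inv_mem' := by
    intro a ha
    show act hinv a⁻¹ v = v
    rw [act_inv]
    exact symm_fix ha

theorem fix_of_zpow {x y : H} {p q : ℤ} (hq : q ≠ 0) (h : y ^ q = x ^ p) {v : LowerSet H}
    (hx : act hinv x v = v) : act hinv y v = v := by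
  have h1 : x ∈ stab hinv v := hx
  have h2 : y ^ q ∈ stab hinv v := by rw [h]; exact zpow_mem h1 p
  have h3 : y ^ q.natAbs ∈ stab hinv v := by
    rcases Int.natAbs_eq q with h4 | h4
    · rw [h4, zpow_natCast] at h2; exact h2
    · rw [h4, zpow_neg, zpow_natCast, inv_mem_iff] at h2; exact h2
  have h4 : 1 ≤ q.natAbs := by omega
  have h5 : (act hinv y)^[q.natAbs] v = v := by
    rw [← act_pow]; exact h3
  rcases lt_trichotomy (act hinv y v) v with h6 | h6 | h6
  · have h7 := iter_lt (X := (LowerSet H)ᵒᵈ) (g := (act hinv y).dual) (v := v) h6 _ h4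
    have h8 : (act hinv y)^[q.natAbs] v < v := h7
    rw [h5] at h8; exact absurd h8 (lt_irrefl _)
  · exact h6
  · have h7 := iter_lt h6 _ h4
    rw [h5] at h7; exact absurd h7 (lt_irrefl _)

include hinv in
/-- In a left-ordered group the chain relations force triviality. -/
theorem rel_trivial {n : ℕ} (hn : 0 < n) {c D f : ZMod n → H} {p q : ZMod n → ℤ}
    (A : ∀ i, c i = c (i + 1) * ((D (i + 1))⁻¹ * c (i + 1) * D (i + 1)))
    (B : ∀ i, D (i + 1) = f i * D i * (c i)⁻¹ * D i)
    (hq : ∀ i, q i ≠ 0) (F : ∀ i, f i ^ q i = c i ^ p i) (i : ZMod n) :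
    c i = 1 ∧ D i = 1 := by
  have hs : Sys (fun i => act hinv (c i)) (fun i => act hinv (D i)) (fun i => act hinv (f i)) := by
    refine ⟨?_, ?_, ?_⟩
    · intro i v
      show act hinv (c (i + 1)) ((act hinv (D (i + 1))).symm
        (act hinv (c (i + 1)) (act hinv (D (i + 1)) v))) = act hinv (c i) v
      rw [A i, ← act_inv]
      simp only [act_mul]
    · intro i v
      show act hinv (f i) (act hinv (D i) ((act hinv (c i)).symm (act hinv (D i) v)))
        = act hinv (D (i + 1)) v
      rw [B i, ← act_inv]
      simp only [act_mul]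
    · intro i v hv
      exact fix_of_zpow hinv (hq i) (F i) hv
  exact ⟨eq_one_of_act hinv _ fun v => (Chain.trivial hs hn i v).1,
    eq_one_of_act hinv _ fun v => (Chain.trivial hs hn i v).2⟩

end act

end Pool.Agent.TH821.Chain
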