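import Pool.Agent.TH821.CyclicKernel

set_option autoImplicit false

/-!
# Fillings of the cyclic covers

Like `Pool.Agent.TH821.CyclicKernel`, with a further generator `f` and arbitrary slopes.
-/

namespace Pool.Agent.TH821.Fill

open Pool.Agent.TH821.Cyc Pool.Agent.TH821.Chain

variable {G : Type*} [Group G] {n : ℕ}

theorem cj_mul (s x y : G) (i : ZMod n) : cj s (x * y) i = cj s x i * cj s y i := by
  unfold cj; group

theorem cj_mem (d : G →* Multiplicative (ZMod n)) (s : G) {x : G} (dx : d x = 1) (i : ZMod n) :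
    cj s x i ∈ d.ker := by
  show d _ = 1
  unfold cj; rw [map_mul, map_mul, dx, map_inv]; simp

/-- Conjugation by a power of `s` on the kernel of `d`. -/
def ck (d : G →* Multiplicative (ZMod n)) (s : G) (i : ZMod n) : d.ker →* d.ker where
  toFun x := ⟨cj s x.1 i, cj_mem d s x.2 i⟩
  map_one' := by apply Subtype.ext; show cj s 1 i = 1; unfold cj; simp
  map_mul' x y := by apply Subtype.ext; exact cj_mul s x.1 y.1 i

theorem cj_shift (hn : 0 < n) {s : G} (hs : s ^ n = 1) (x : G) (i : ZMod n) :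
    cj s x (i + 1) = cj s (s * x * s⁻¹) i := by
  rw [cj_succ hn hs]
  unfold cj
  have h1 : s * s ^ i.val = s ^ i.val * s := (pow_succ' s i.val).symm.trans (pow_succ s i.val)
  calc s * (s ^ i.val * x * (s ^ i.val)⁻¹) * s⁻¹ = (s * s ^ i.val) * x * (s * s ^ i.val)⁻¹ := by
        group
    _ = _ := by rw [h1]; group

/-- Kernel of a homomorphism to `Z/n`. -/
theorem ker_le_of (N : Subgroup G) [N.Normal] (s : G) (hs : s ^ n = 1) {S : Set G}
    (hS : Subgroup.closure S = ⊤)
    (h : ∀ g ∈ S, QuotientGroup.mk' N g ∈ Subgroup.zpowers (QuotientGroup.mk' N s))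
    (d : G →* Multiplicative (ZMod n)) (hN : N ≤ d.ker) (ds : d s = Multiplicative.ofAdd 1) :
    d.ker ≤ N := by
  intro g hg
  have h1 : (⊤ : Subgroup G) ≤
      (Subgroup.zpowers (QuotientGroup.mk' N s)).comap (QuotientGroup.mk' N) := by
    rw [← hS, Subgroup.closure_le]
    intro x hx
    exact h x hx
  obtain ⟨m, hm⟩ := h1 (Subgroup.mem_top g)
  have hm' : QuotientGroup.mk' N (s ^ m) = QuotientGroup.mk' N g := by
    rw [map_zpow]; exact hm
  obtain ⟨z, hz, hz2⟩ := (QuotientGroup.mk'_eq_mk' N).mp hm'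
  have hd : d (s ^ m) = 1 := by
    have h2 : d (s ^ m * z) = 1 := by rw [hz2]; exact hg
    rw [map_mul, (hN hz : d z = 1), mul_one] at h2
    exact h2
  rw [map_zpow, ds, ← ofAdd_zsmul] at hd
  have h5 : (m : ZMod n) = 0 := by
    have := Multiplicative.ofAdd.injective (hd.trans ofAdd_zero.symm)
    simpa using this
  rw [ZMod.intCast_zmod_eq_zero_iff_dvd] at h5
  obtain ⟨l, rfl⟩ := h5
  rw [zpow_mul, zpow_natCast, hs, one_zpow, one_mul] at hz2
  rw [← hz2]; exact hz

/-- The subgroup generated by the conjugates of the elements of `S` by powers of `s`. -/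
def NS' (n : ℕ) (s : G) (S : Set G) : Subgroup G :=
  Subgroup.closure {z | ∃ x ∈ S, ∃ i : ZMod n, z = cj s x i}

theorem cj_mem_NS (n : ℕ) (s : G) {S : Set G} {x : G} (hx : x ∈ S) (i : ZMod n) :
    cj s x i ∈ NS' n s S := Subgroup.subset_closure ⟨x, hx, i, rfl⟩

theorem mem_NS (hn : 0 < n) (s : G) {S : Set G} {x : G} (hx : x ∈ S) : x ∈ NS' n s S := by
  have := cj_mem_NS n s hx 0
  rwa [cj_zero hn] at this

theorem conj_s (hn : 0 < n) {s : G} (hs : s ^ n = 1) {S : Set G} {x : G} (hx : x ∈ NS' n s S) :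
    s * x * s⁻¹ ∈ NS' n s S ∧ s⁻¹ * x * s ∈ NS' n s S := by
  induction hx using Subgroup.closure_induction with
  | mem x hx =>
    obtain ⟨y, hy, i, rfl⟩ := hx
    constructor
    · rw [← cj_succ hn hs]; exact cj_mem_NS n s hy _
    · have := cj_pred hn hs y (i - 1)
      rw [sub_add_cancel] at this
      rw [this]; exact cj_mem_NS n s hy _
  | one => constructor <;> simp [one_mem]
  | mul x y _ _ hx hy =>
    constructor
    · have : s * (x * y) * s⁻¹ = (s * x * s⁻¹) * (s * y * s⁻¹) := by group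
      rw [this]; exact mul_mem hx.1 hy.1
    · have : s⁻¹ * (x * y) * s = (s⁻¹ * x * s) * (s⁻¹ * y * s) := by group
      rw [this]; exact mul_mem hx.2 hy.2
  | inv x _ hx =>
    constructor
    · have : s * x⁻¹ * s⁻¹ = (s * x * s⁻¹)⁻¹ := by group
      rw [this]; exact inv_mem hx.1
    · have : s⁻¹ * x⁻¹ * s = (s⁻¹ * x * s)⁻¹ := by group
      rw [this]; exact inv_mem hx.2

theorem normal_NS (hn : 0 < n) {s : G} (hs : s ^ n = 1) {S : Set G}
    (hS : Subgroup.closure (insert s S) = ⊤) : (NS' n s S).Normal := by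
  have key : ∀ g : G, (∀ x ∈ NS' n s S, g * x * g⁻¹ ∈ NS' n s S) ∧
      (∀ x ∈ NS' n s S, g⁻¹ * x * g ∈ NS' n s S) := by
    intro g
    have hg : g ∈ Subgroup.closure (insert s S) := by rw [hS]; trivial
    induction hg using Subgroup.closure_induction with
    | mem g hg =>
      rcases hg with rfl | hg
      · exact ⟨fun x hx => (conj_s hn hs hx).1, fun x hx => (conj_s hn hs hx).2⟩
      · have h1 := mem_NS hn s hg
        exact ⟨fun x hx => mul_mem (mul_mem h1 hx) (inv_mem h1),
          fun x hx => mul_mem (mul_mem (inv_mem h1) hx) h1⟩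
    | one => exact ⟨fun x hx => by simpa using hx, fun x hx => by simpa using hx⟩
    | mul g h _ _ ihg ihh =>
      constructor
      · intro x hx
        have : g * h * x * (g * h)⁻¹ = g * (h * x * h⁻¹) * g⁻¹ := by group
        rw [this]; exact ihg.1 _ (ihh.1 _ hx)
      · intro x hx
        have : (g * h)⁻¹ * x * (g * h) = h⁻¹ * (g⁻¹ * x * g) * h := by group
        rw [this]; exact ihh.2 _ (ihg.2 _ hx)
    | inv g _ ih =>
      exact ⟨fun x hx => by simpa using ih.2 x hx, fun x hx => by simpa using ih.1 x hx⟩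
  exact ⟨fun x hx g => (key g).1 x hx⟩

/-- Homomorphisms from the kernel of `d` to a left-ordered group that kill one non-longitudinal
slope for each lift are trivial. -/
theorem hom_trivial (hn : 0 < n) {s c D f : G} (hs : s ^ n = 1)
    (hgen : Subgroup.closure {s, c, D, f} = ⊤)
    (d : G →* Multiplicative (ZMod n)) (ds : d s = Multiplicative.ofAdd 1) (dc : d c = 1)
    (dD : d D = 1) (df : d f = 1) (A : s⁻¹ * c * s = c * (D⁻¹ * c * D))
    (B : s * D * s⁻¹ = f * D * c⁻¹ * D)
    {H : Type*} [Group H] [LinearOrder H] (hinv : ∀ a b c : H, a ≤ b ↔ c * a ≤ c * b)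
    (φ : d.ker →* H) (p q : ZMod n → ℤ) (hq : ∀ i, q i ≠ 0)
    (hF : ∀ i, φ (ck d s i ⟨f, df⟩) ^ q i = φ (ck d s i ⟨c, dc⟩) ^ p i) (g : d.ker) :
    φ g = 1 := by
  have key : ∀ (i : ZMod n) (x y : d.ker), s * x.1 * s⁻¹ = y.1 →
      φ (ck d s (i + 1) x) = φ (ck d s i y) := by
    intro i x y hxy
    congr 1
    apply Subtype.ext
    show cj s x.1 (i + 1) = cj s y.1 i
    rw [cj_shift hn hs, hxy]
  set c' : d.ker := ⟨c, dc⟩ with hc'
  set D' : d.ker := ⟨D, dD⟩ with hD'
  set f' : d.ker := ⟨f, df⟩ with hf'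
  have A' : ∀ i, φ (ck d s i c') = φ (ck d s (i + 1) c') *
      ((φ (ck d s (i + 1) D'))⁻¹ * φ (ck d s (i + 1) c') * φ (ck d s (i + 1) D')) := by
    intro i
    have h1 : s * (c * (D⁻¹ * c * D)) * s⁻¹ = c := by rw [← A]; group
    have := key i (c' * (D'⁻¹ * c' * D')) c' h1
    rw [← this]
    simp only [map_mul, map_inv]
  have B' : ∀ i, φ (ck d s (i + 1) D') =
      φ (ck d s i f') * φ (ck d s i D') * (φ (ck d s i c'))⁻¹ * φ (ck d s i D') := by
    intro i
    have := key i D' (f' * D' * c'⁻¹ * D') B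
    rw [this]
    simp only [map_mul, map_inv]
  have triv := fun i => rel_trivial hinv hn (c := fun i => φ (ck d s i c'))
    (D := fun i => φ (ck d s i D')) (f := fun i => φ (ck d s i f')) A' B' hq hF i
  have trivf : ∀ i, φ (ck d s i f') = 1 := by
    intro i
    have h1 := B' i
    rw [(triv (i + 1)).2, (triv i).1, (triv i).2] at h1
    simpa using h1.symm
  have hN : NS' n s {c, D, f} ≤ d.ker := by
    unfold NS'
    rw [Subgroup.closure_le]
    rintro _ ⟨x, hx, i, rfl⟩
    apply cj_mem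
    rcases hx with rfl | rfl | rfl
    · exact dc
    · exact dD
    · exact df
  have h1 : NS' n s {c, D, f} ≤ φ.ker.map d.ker.subtype := by
    unfold NS'
    rw [Subgroup.closure_le]
    rintro _ ⟨x, hx, i, rfl⟩
    rcases hx with rfl | rfl | rfl
    · exact ⟨ck d s i c', (triv i).1, rfl⟩
    · exact ⟨ck d s i D', (triv i).2, rfl⟩
    · exact ⟨ck d s i f', trivf i, rfl⟩
  have hnor := normal_NS hn hs (S := {c, D, f}) hgen
  have h5 := ker_le_of (NS' n s {c, D, f}) s hs hgen (by
    intro x hx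
    rcases hx with rfl | hx
    · exact Subgroup.mem_zpowers _
    · have h6 : QuotientGroup.mk' (NS' n s {c, D, f}) x = 1 :=
        (QuotientGroup.eq_one_iff x).mpr (mem_NS hn s hx)
      rw [h6]; exact one_mem _) d hN ds
  obtain ⟨g', hg', hgg⟩ := h1 (h5 g.2)
  have : g' = g := Subtype.ext hgg
  rw [← this]; exact hg'

end Pool.Agent.TH821.Fill
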