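import Pool.Agent.TH821.ChainGroup

set_option autoImplicit false

/-!
# From the orbifold group to the chain relations

`G` is a group with a homomorphism `d` to `Z/n` and elements `s, c, D` with `d s = 1`,
`d c = d D = 0`, `s ^ n = 1`, such that every element of `G` is in the subgroup generated by
`s, c, D`.  The kernel of `d` is generated by the conjugates of `c` and `D` by powers of `s`.
-/

namespace Pool.Agent.TH821.Cyc

variable {G : Type*} [Group G] {n : ℕ}

/-- The conjugate of `x` by the `i`-th power of `s`. -/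
def cj (s x : G) (i : ZMod n) : G := s ^ i.val * x * (s ^ i.val)⁻¹

theorem cj_succ (hn : 0 < n) {s : G} (hs : s ^ n = 1) (x : G) (i : ZMod n) :
    cj s x (i + 1) = s * cj s x i * s⁻¹ := by
  have : NeZero n := ⟨hn.ne'⟩
  have h1 : s ^ (i + 1).val = s * s ^ i.val := by
    rw [← pow_succ', ZMod.val_add, ZMod.val_one_eq_one_mod, Nat.add_mod_mod,
      ← pow_eq_pow_mod _ hs]
  unfold cj
  rw [h1]
  group

theorem cj_pred (hn : 0 < n) {s : G} (hs : s ^ n = 1) (x : G) (i : ZMod n) :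
    s⁻¹ * cj s x (i + 1) * s = cj s x i := by
  rw [cj_succ hn hs]; group

/-- The subgroup generated by the conjugates of `c` and `D`. -/
def N (n : ℕ) (s c D : G) : Subgroup G :=
  Subgroup.closure (Set.range (cj (n := n) s c) ∪ Set.range (cj (n := n) s D))

theorem conj_mem (hn : 0 < n) {s c D : G} (hs : s ^ n = 1) {x : G} (hx : x ∈ N n s c D) :
    s * x * s⁻¹ ∈ N n s c D := by
  induction hx using Subgroup.closure_induction with
  | mem x hx =>
    rcases hx with ⟨i, rfl⟩ | ⟨i, rfl⟩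
    · rw [← cj_succ hn hs]
      exact Subgroup.subset_closure (Or.inl ⟨i + 1, rfl⟩)
    · rw [← cj_succ hn hs]
      exact Subgroup.subset_closure (Or.inr ⟨i + 1, rfl⟩)
  | one => simpa using Subgroup.one_mem _
  | mul x y _ _ hx hy =>
    have : s * (x * y) * s⁻¹ = (s * x * s⁻¹) * (s * y * s⁻¹) := by group
    rw [this]; exact mul_mem hx hy
  | inv x _ hx =>
    have : s * x⁻¹ * s⁻¹ = (s * x * s⁻¹)⁻¹ := by group
    rw [this]; exact inv_mem hx

theorem conj_pow_mem (hn : 0 < n) {s c D : G} (hs : s ^ n = 1) {x : G} (hx : x ∈ N n s c D)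
    (m : ℕ) : s ^ m * x * (s ^ m)⁻¹ ∈ N n s c D := by
  induction m with
  | zero => simpa using hx
  | succ m ih =>
    have : s ^ (m + 1) * x * (s ^ (m + 1))⁻¹ = s * (s ^ m * x * (s ^ m)⁻¹) * s⁻¹ := by
      rw [pow_succ']; group
    rw [this]; exact conj_mem hn hs ih

/-- Every power of `s` is a natural power. -/
theorem inv_eq_pow (hn : 0 < n) {s : G} (hs : s ^ n = 1) (m : ℕ) :
    (s ^ m)⁻¹ = s ^ (m * (n - 1)) := by
  have h1 : s ^ m * s ^ (m * (n - 1)) = 1 := by
    rw [← pow_add]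
    have : m + m * (n - 1) = n * m := by
      obtain ⟨n, rfl⟩ := Nat.exists_eq_add_of_le' hn
      simp; ring
    rw [this, pow_mul, hs, one_pow]
  exact inv_eq_of_mul_eq_one_right h1

/-- The subgroup `N ⟨s⟩`. -/
def NS (hn : 0 < n) {s c D : G} (hs : s ^ n = 1) : Subgroup G where
  carrier := {g | ∃ x ∈ N n s c D, ∃ m : ℕ, g = x * s ^ m}
  mul_mem' := by
    rintro _ _ ⟨x, hx, m, rfl⟩ ⟨y, hy, l, rfl⟩
    refine ⟨x * (s ^ m * y * (s ^ m)⁻¹), mul_mem hx (conj_pow_mem hn hs hy m), m + l, ?_⟩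
    rw [pow_add]; group
  one_mem' := ⟨1, one_mem _, 0, by simp⟩
  inv_mem' := by
    rintro _ ⟨x, hx, m, rfl⟩
    refine ⟨s ^ (m * (n - 1)) * x⁻¹ * (s ^ (m * (n - 1)))⁻¹,
      conj_pow_mem hn hs (inv_mem hx) _, m * (n - 1), ?_⟩
    rw [mul_inv_rev, inv_eq_pow hn hs m]; group

theorem cj_zero (hn : 0 < n) (s x : G) : cj s x (0 : ZMod n) = x := by
  unfold cj; simp

theorem mem_N_c (hn : 0 < n) (s c D : G) : c ∈ N n s c D :=
  Subgroup.subset_closure (Or.inl ⟨0, cj_zero hn s c⟩)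

theorem mem_N_D (hn : 0 < n) (s c D : G) : D ∈ N n s c D :=
  Subgroup.subset_closure (Or.inr ⟨0, cj_zero hn s D⟩)

/-- If `G` is generated by `s, c, D` then the kernel of `d` is contained in `N`. -/
theorem ker_le (hn : 0 < n) {s c D : G} (hs : s ^ n = 1)
    (hgen : ∀ K : Subgroup G, s ∈ K → c ∈ K → D ∈ K → K = ⊤)
    (d : G →* Multiplicative (ZMod n)) (ds : d s = Multiplicative.ofAdd 1) (dc : d c = 1)
    (dD : d D = 1) {g : G} (hg : d g = 1) : g ∈ N n s c D := by
  have h1 : NS hn (c := c) (D := D) hs = ⊤ := by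
    apply hgen
    · exact ⟨1, one_mem _, 1, by simp⟩
    · exact ⟨c, mem_N_c hn s c D, 0, by simp⟩
    · exact ⟨D, mem_N_D hn s c D, 0, by simp⟩
  have h2 : N n s c D ≤ d.ker := by
    unfold N
    rw [Subgroup.closure_le]
    rintro _ (⟨i, rfl⟩ | ⟨i, rfl⟩)
    · show d _ = 1
      unfold cj; rw [map_mul, map_mul, dc, map_inv]; simp
    · show d _ = 1
      unfold cj; rw [map_mul, map_mul, dD, map_inv]; simp
  have h3 : g ∈ NS hn (c := c) (D := D) hs := by rw [h1]; trivial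
  obtain ⟨x, hx, m, rfl⟩ := h3
  have h4 : d x = 1 := h2 hx
  rw [map_mul, h4, one_mul, map_pow, ds, ← ofAdd_nsmul] at hg
  have h5 : (m : ZMod n) = 0 := by
    have := Multiplicative.ofAdd.injective (hg.trans ofAdd_zero.symm)
    simpa using this
  rw [ZMod.natCast_eq_zero_iff] at h5
  obtain ⟨l, rfl⟩ := h5
  rw [pow_mul, hs, one_pow, mul_one]
  exact hx

open Pool.Agent.TH821.Chain in
/-- Homomorphisms from the kernel of `d` to a left-ordered group are trivial. -/
theorem hom_trivial (hn : 0 < n) {s c D : G} (hs : s ^ n = 1)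
    (hgen : ∀ K : Subgroup G, s ∈ K → c ∈ K → D ∈ K → K = ⊤)
    (d : G →* Multiplicative (ZMod n)) (ds : d s = Multiplicative.ofAdd 1) (dc : d c = 1)
    (dD : d D = 1) (k : ℤ) (A : s⁻¹ * c * s = c * (D⁻¹ * c * D))
    (B : s * D * s⁻¹ = c ^ k * D * c⁻¹ * D)
    {H : Type*} [Group H] [LinearOrder H] (hinv : ∀ a b c : H, a ≤ b ↔ c * a ≤ c * b)
    (φ : d.ker →* H) (g : d.ker) : φ g = 1 := by
  have mc : ∀ i : ZMod n, cj s c i ∈ d.ker := by
    intro i
    show d _ = 1
    unfold cj; rw [map_mul, map_mul, dc, map_inv]; simp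
  have mD : ∀ i : ZMod n, cj s D i ∈ d.ker := by
    intro i
    show d _ = 1
    unfold cj; rw [map_mul, map_mul, dD, map_inv]; simp
  set C' : ZMod n → H := fun i => φ ⟨cj s c i, mc i⟩ with hC'
  set D' : ZMod n → H := fun i => φ ⟨cj s D i, mD i⟩ with hD'
  have A' : ∀ i, C' i = C' (i + 1) * ((D' (i + 1))⁻¹ * C' (i + 1) * D' (i + 1)) := by
    intro i
    show φ _ = φ _ * ((φ _)⁻¹ * φ _ * φ _)
    rw [← map_inv, ← map_mul, ← map_mul, ← map_mul]
    congr 1
    apply Subtype.ext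
    show cj s c i = cj s c (i + 1) * ((cj s D (i + 1))⁻¹ * cj s c (i + 1) * cj s D (i + 1))
    rw [← cj_pred hn hs c i]
    unfold cj
    set t := s ^ (i + 1).val with ht
    have hcomm : s⁻¹ * t = t * s⁻¹ := by
      rw [ht]; exact ((Commute.refl s).inv_left.pow_right _).eq
    have hcomm2 : t⁻¹ * s = s * t⁻¹ := by
      rw [ht]; exact (((Commute.refl s).pow_left _).inv_left).eq
    calc s⁻¹ * (t * c * t⁻¹) * s = (s⁻¹ * t) * c * (t⁻¹ * s) := by group
      _ = t * (s⁻¹ * c * s) * t⁻¹ := by rw [hcomm, hcomm2]; group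
      _ = _ := by rw [A]; group
  have B' : ∀ i, D' (i + 1) = C' i ^ k * D' i * (C' i)⁻¹ * D' i := by
    intro i
    show φ _ = φ _ ^ k * φ _ * (φ _)⁻¹ * φ _
    rw [← map_inv, ← map_zpow, ← map_mul, ← map_mul, ← map_mul]
    congr 1
    apply Subtype.ext
    show cj s D (i + 1) = (cj s c i) ^ k * cj s D i * (cj s c i)⁻¹ * cj s D i
    rw [cj_succ hn hs]
    unfold cj
    set t := s ^ i.val with ht
    have hcomm : s * t = t * s := by
      rw [ht]; exact ((Commute.refl s).pow_right _).eq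
    have hcomm2 : t⁻¹ * s⁻¹ = s⁻¹ * t⁻¹ := by
      rw [ht]; exact (((Commute.refl s).pow_left _).inv_inv).eq
    rw [conj_zpow]
    calc s * (t * D * t⁻¹) * s⁻¹ = (s * t) * D * (t⁻¹ * s⁻¹) := by group
      _ = t * (s * D * s⁻¹) * t⁻¹ := by rw [hcomm, hcomm2]; group
      _ = _ := by rw [B]; group
  have triv := fun i => rel_trivial hinv hn (f := fun i => C' i ^ k) (p := fun _ => k)
    (q := fun _ => 1) A' B' (fun _ => one_ne_zero) (fun i => zpow_one _) i
  have h1 : N n s c D ≤ φ.ker.map d.ker.subtype := by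
    unfold N
    rw [Subgroup.closure_le]
    rintro _ (⟨i, rfl⟩ | ⟨i, rfl⟩)
    · exact ⟨⟨cj s c i, mc i⟩, (triv i).1, rfl⟩
    · exact ⟨⟨cj s D i, mD i⟩, (triv i).2, rfl⟩
  obtain ⟨g', hg', hgg⟩ := h1 (ker_le hn hs hgen d ds dc dD g.2)
  have : g' = g := Subtype.ext hgg
  rw [← this]; exact hg'

end Pool.Agent.TH821.Cyc
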