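import Pool.Agent.TH821.HexStage

set_option autoImplicit false

/-!
# The periodic chain of stages

Period 3, 4 or 5: every point is fixed by all `X i` and `V i`.
-/

namespace Pool.Agent.TH821.Hex

/-- The six orders of `a, c, y` (all but `a = c = y`), numbered modulo 6. -/
def Sec {Ω : Type*} [CompleteLinearOrder Ω] (m : ℕ) (a c y : Ω) : Prop :=
  (m % 6 = 0 ∧ a < y ∧ y ≤ c) ∨ (m % 6 = 1 ∧ a ≤ c ∧ c < y) ∨ (m % 6 = 2 ∧ c < a ∧ a ≤ y) ∨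
  (m % 6 = 3 ∧ c ≤ y ∧ y < a) ∨ (m % 6 = 4 ∧ y < c ∧ c ≤ a) ∨ (m % 6 = 5 ∧ y ≤ a ∧ a < c)

section sec
variable {Ω : Type*} [CompleteLinearOrder Ω]

theorem Sec.dual {m : ℕ} {a c y : Ω} (h : Sec m a c y) : Sec (Ω := Ωᵒᵈ) (m + 3) a c y := by
  rcases h with ⟨h, h1, h2⟩ | ⟨h, h1, h2⟩ | ⟨h, h1, h2⟩ | ⟨h, h1, h2⟩ | ⟨h, h1, h2⟩ | ⟨h, h1, h2⟩
  · exact Or.inr (Or.inr (Or.inr (Or.inl ⟨by omega, h2, h1⟩)))
  · exact Or.inr (Or.inr (Or.inr (Or.inr (Or.inl ⟨by omega, h2, h1⟩))))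
  · exact Or.inr (Or.inr (Or.inr (Or.inr (Or.inr ⟨by omega, h2, h1⟩))))
  · exact Or.inl ⟨by omega, h2, h1⟩
  · exact Or.inr (Or.inl ⟨by omega, h2, h1⟩)
  · exact Or.inr (Or.inr (Or.inl ⟨by omega, h2, h1⟩))

theorem Sec.of_dual {m : ℕ} {a c y : Ω} (h : Sec (Ω := Ωᵒᵈ) m a c y) : Sec (m + 3) a c y :=
  Sec.dual (Ω := Ωᵒᵈ) h

theorem Sec.congr {m m' : ℕ} {a c y : Ω} (hm : m % 6 = m' % 6) (h : Sec m a c y) :
    Sec m' a c y := by
  unfold Sec at *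
  rw [hm] at h
  exact h

/-- the order determines the number. -/
theorem Sec.unique {m m' : ℕ} {a c y : Ω} (h : Sec m a c y) (h' : Sec m' a c y) :
    m % 6 = m' % 6 := by
  rcases h with ⟨h, h1, h2⟩ | ⟨h, h1, h2⟩ | ⟨h, h1, h2⟩ | ⟨h, h1, h2⟩ | ⟨h, h1, h2⟩ | ⟨h, h1, h2⟩ <;>
  rcases h' with ⟨k, k1, k2⟩ | ⟨k, k1, k2⟩ | ⟨k, k1, k2⟩ | ⟨k, k1, k2⟩ | ⟨k, k1, k2⟩ | ⟨k, k1, k2⟩ <;>
  first
  | exact h.trans k.symm
  | (exfalso; order)

/-- all cases. -/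
theorem sec_or (a c y : Ω) : (a = y ∧ c = y) ∨ ∃ m, Sec m a c y := by
  rcases lt_trichotomy a y with h | h | h
  · rcases le_or_gt y c with h1 | h1
    · exact Or.inr ⟨0, Or.inl ⟨rfl, h, h1⟩⟩
    · rcases le_or_gt a c with h2 | h2
      · exact Or.inr ⟨1, Or.inr (Or.inl ⟨rfl, h2, h1⟩)⟩
      · exact Or.inr ⟨2, Or.inr (Or.inr (Or.inl ⟨rfl, h2, h.le⟩))⟩
  · rcases lt_trichotomy c y with h1 | h1 | h1
    · exact Or.inr ⟨2, Or.inr (Or.inr (Or.inl ⟨rfl, h ▸ h1, h.le⟩))⟩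
    · exact Or.inl ⟨h, h1⟩
    · exact Or.inr ⟨5, Or.inr (Or.inr (Or.inr (Or.inr (Or.inr ⟨rfl, h.ge, h ▸ h1⟩))))⟩
  · rcases le_or_gt c y with h1 | h1
    · exact Or.inr ⟨3, Or.inr (Or.inr (Or.inr (Or.inl ⟨rfl, h1, h⟩)))⟩
    · rcases le_or_gt c a with h2 | h2
      · exact Or.inr ⟨4, Or.inr (Or.inr (Or.inr (Or.inr (Or.inl ⟨rfl, h1, h2⟩))))⟩
      · exact Or.inr ⟨5, Or.inr (Or.inr (Or.inr (Or.inr (Or.inr ⟨rfl, h.le, h2⟩))))⟩

theorem Sec.ne {m : ℕ} {a c y : Ω} (h : Sec m a c y) : ¬ (a = y ∧ c = y) := by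
  rintro ⟨e1, e2⟩
  rcases h with ⟨h, h1, h2⟩ | ⟨h, h1, h2⟩ | ⟨h, h1, h2⟩ | ⟨h, h1, h2⟩ | ⟨h, h1, h2⟩ | ⟨h, h1, h2⟩ <;>
  order

end sec

variable {Ω : Type*} [CompleteLinearOrder Ω]

/-- The chain. -/
structure IsChain (X V W F G H : ℕ → Ω ≃o Ω) : Prop where
  stage : ∀ i, Stage (X i) (V i) (W i) (F i) (G i) (H i)
  linkA : ∀ i y, G (i + 1) ((X (i + 1)).symm ((F (i + 1)).symm y)) =
    (W i).symm (G i ((X i).symm ((F i).symm y)))
  linkC : ∀ i y, H (i + 1) (W (i + 1) ((F (i + 1)).symm y)) =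
    H i ((X i).symm ((F i).symm y))
  linkB : ∀ i y, H (i + 1) ((V (i + 1)).symm ((G (i + 1)).symm y)) =
    H i ((V i).symm ((G i).symm ((X i).symm y)))

/-- The dual family. -/
def du (X : ℕ → Ω ≃o Ω) : ℕ → Ωᵒᵈ ≃o Ωᵒᵈ := fun i => (X i).dual

theorem IsChain.dual {X V W F G H : ℕ → Ω ≃o Ω} (h : IsChain X V W F G H) :
    IsChain (Ω := Ωᵒᵈ) (du X) (du V) (du W) (du F) (du G) (du H) :=
  ⟨fun i => (h.stage i).dual, fun i y => h.linkA i y, fun i y => h.linkC i y,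
    fun i y => h.linkB i y⟩

/-- The first node function. -/
def nA (X F G : ℕ → Ω ≃o Ω) (i : ℕ) (y : Ω) : Ω := G i ((X i).symm ((F i).symm y))

/-- The second node function. -/
def nC (W F H : ℕ → Ω ≃o Ω) (i : ℕ) (y : Ω) : Ω := H i (W i ((F i).symm y))

/-- The third node function. -/
def nB (V G H : ℕ → Ω ≃o Ω) (i : ℕ) (y : Ω) : Ω := H i ((V i).symm ((G i).symm y))

/-- The order at node `i` over the point `y`. -/
def At (X W F G H : ℕ → Ω ≃o Ω) (i m : ℕ) (y : Ω) : Prop :=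
  Sec m (nA X F G i y) (nC W F H i y) y

section chain
variable {X V W F G H : ℕ → Ω ≃o Ω}

theorem At.dual {i m : ℕ} {y : Ω} (h : At X W F G H i m y) :
    At (Ω := Ωᵒᵈ) (du X) (du W) (du F) (du G) (du H) i (m + 3) y :=
  Sec.dual (Ω := Ω) (m := m) (a := nA X F G i y) (c := nC W F H i y) (y := y) h

theorem At.of_dual {i m : ℕ} {y : Ω} (h : At (Ω := Ωᵒᵈ) (du X) (du W) (du F) (du G) (du H) i m y) :
    At X W F G H i (m + 3) y :=
  Sec.of_dual (Ω := Ω) (m := m) (a := nA X F G i y) (c := nC W F H i y) (y := y) h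

theorem At.congr {i m m' : ℕ} {y : Ω} (hm : m % 6 = m' % 6) (h : At X W F G H i m y) :
    At X W F G H i m' y := Sec.congr hm h

theorem At.unique {i m m' : ℕ} {y : Ω} (h : At X W F G H i m y) (h' : At X W F G H i m' y) :
    m % 6 = m' % 6 := Sec.unique h h'

theorem nA_eq (i : ℕ) (t : Ω) : nA X F G i (F i (X i t)) = G i t := by
  unfold nA; rw [OrderIso.symm_apply_apply, OrderIso.symm_apply_apply]

theorem nC_eq (X : ℕ → Ω ≃o Ω) (i : ℕ) (t : Ω) :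
    nC W F H i (F i (X i t)) = H i (W i (X i t)) := by
  unfold nC; rw [OrderIso.symm_apply_apply]

theorem IsChain.nA_succ (h : IsChain X V W F G H) (i : ℕ) (t : Ω) :
    nA X F G (i + 1) (F i (X i t)) = (W i).symm (G i t) := by
  have := h.linkA i (F i (X i t))
  rw [OrderIso.symm_apply_apply, OrderIso.symm_apply_apply] at this
  exact this

theorem IsChain.nC_succ (h : IsChain X V W F G H) (i : ℕ) (t : Ω) :
    nC W F H (i + 1) (F i (X i t)) = H i t := by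
  have := h.linkC i (F i (X i t))
  rw [OrderIso.symm_apply_apply, OrderIso.symm_apply_apply] at this
  exact this

theorem ex_t (i : ℕ) (y : Ω) : ∃ t, F i (X i t) = y :=
  ⟨(X i).symm ((F i).symm y), by rw [OrderIso.apply_symm_apply, OrderIso.apply_symm_apply]⟩

/-- one step, from the orders 0, 1, 2. -/
theorem IsChain.step012 (h : IsChain X V W F G H) {i m : ℕ} {y : Ω} (hm : m % 6 ≤ 2)
    (hy : At X W F G H i m y) :
    At X W F G H (i + 1) m y ∨ At X W F G H (i + 1) (m + 1) y ∨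
      (m % 3 = 0 ∧ At X W F G H (i + 1) (m + 2) y) := by
  obtain ⟨t, rfl⟩ := ex_t (X := X) (F := F) i y
  unfold At at *
  rw [nA_eq, nC_eq X] at hy
  rw [h.nA_succ, h.nC_succ]
  have hs := h.stage i
  rcases hy with ⟨k, k1, k2⟩ | ⟨k, k1, k2⟩ | ⟨k, k1, k2⟩ | ⟨k, k1, k2⟩ | ⟨k, k1, k2⟩ | ⟨k, k1, k2⟩
  · obtain ⟨e1, e2⟩ := s0_next hs k1 k2
    rcases le_or_gt (F i (X i t)) (H i t) with h1 | h1
    · exact Or.inl (Or.inl ⟨k, e1, h1⟩)
    · rcases le_or_gt ((W i).symm (G i t)) (H i t) with h2 | h2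
      · exact Or.inr (Or.inl (Or.inr (Or.inl ⟨by omega, h2, h1⟩)))
      · exact Or.inr (Or.inr ⟨by omega, Or.inr (Or.inr (Or.inl ⟨by omega, h2, e1.le⟩))⟩)
  · obtain ⟨e1, e2⟩ := s1_next hs k1 k2
    rcases le_or_gt ((W i).symm (G i t)) (H i t) with h2 | h2
    · exact Or.inl (Or.inr (Or.inl ⟨k, h2, e1⟩))
    · exact Or.inr (Or.inl (Or.inr (Or.inr (Or.inl ⟨by omega, h2, e2⟩))))
  · obtain ⟨e1, e2, e3⟩ := s2_next hs k1 k2
    rcases le_or_gt ((W i).symm (G i t)) (F i (X i t)) with h2 | h2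
    · exact Or.inl (Or.inr (Or.inr (Or.inl ⟨k, e2, h2⟩)))
    · exact Or.inr (Or.inl (Or.inr (Or.inr (Or.inr (Or.inl ⟨by omega, e1, h2⟩)))))
  · omega
  · omega
  · omega

/-- one step. -/
theorem IsChain.step (h : IsChain X V W F G H) {i m : ℕ} {y : Ω}
    (hy : At X W F G H i m y) :
    At X W F G H (i + 1) m y ∨ At X W F G H (i + 1) (m + 1) y ∨
      (m % 3 = 0 ∧ At X W F G H (i + 1) (m + 2) y) := by
  rcases le_or_gt (m % 6) 2 with hm | hm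
  · exact h.step012 hm hy
  · rcases h.dual.step012 (i := i) (m := m + 3) (by omega) hy.dual with h1 | h1 | ⟨h0, h1⟩
    · exact Or.inl (h1.of_dual.congr (by omega))
    · exact Or.inr (Or.inl (h1.of_dual.congr (by omega)))
    · exact Or.inr (Or.inr ⟨by omega, h1.of_dual.congr (by omega)⟩)

/-- a double step from order 0. -/
theorem IsChain.double (h : IsChain X V W F G H) {i m m' : ℕ} {y : Ω} (hm : m % 6 = 0)
    (hm' : m' % 6 = 2) (hy : At X W F G H i m y) (hy' : At X W F G H (i + 1) m' y) :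
    ∃ z, W i z = z ∧ z < X i z ∧ F i z ≤ y ∧ y < F i (X i z) := by
  obtain ⟨t, rfl⟩ := ex_t (X := X) (F := F) i y
  unfold At at *
  rw [nA_eq, nC_eq X] at hy
  rw [h.nA_succ, h.nC_succ] at hy'
  have hs := h.stage i
  have k1 : G i t < F i (X i t) ∧ F i (X i t) ≤ H i (W i (X i t)) := by
    rcases hy with ⟨k, k1, k2⟩ | ⟨k, k1, k2⟩ | ⟨k, k1, k2⟩ | ⟨k, k1, k2⟩ | ⟨k, k1, k2⟩ | ⟨k, k1, k2⟩
    · exact ⟨k1, k2⟩
    all_goals omega
  have k3 : H i t < (W i).symm (G i t) := by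
    rcases hy' with ⟨k, k1, k2⟩ | ⟨k, k1, k2⟩ | ⟨k, k1, k2⟩ | ⟨k, k1, k2⟩ | ⟨k, k1, k2⟩ | ⟨k, k1, k2⟩
    · omega
    · omega
    · exact k1
    all_goals omega
  exact s0_double hs k1.1 k1.2 k3

/-- after a fixed point of `W` moved up by `X` the order is 1. -/
theorem IsChain.at_z (h : IsChain X V W F G H) {i : ℕ} {z : Ω} (h1 : W i z = z)
    (h2 : z < X i z) : At X W F G H (i + 1) 1 (F i (X i z)) := by
  unfold At
  rw [h.nA_succ, h.nC_succ]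
  obtain ⟨e1, e2⟩ := z_next (h.stage i) h1 h2
  exact Or.inr (Or.inl ⟨rfl, e1, e2⟩)

/-- order 0, twice: the second node function decreases. -/
theorem IsChain.dec0 (h : IsChain X V W F G H) {i m : ℕ} {y : Ω} (hm : m % 6 = 0)
    (hy : At X W F G H i m y) : nC W F H (i + 1) y < nC W F H i y := by
  obtain ⟨t, rfl⟩ := ex_t (X := X) (F := F) i y
  unfold At at *
  rw [nA_eq, nC_eq X] at hy
  rw [h.nC_succ, nC_eq X]
  rcases hy with ⟨k, k1, k2⟩ | ⟨k, k1, k2⟩ | ⟨k, k1, k2⟩ | ⟨k, k1, k2⟩ | ⟨k, k1, k2⟩ | ⟨k, k1, k2⟩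
  · exact (s0_next (h.stage i) k1 k2).2
  all_goals omega

theorem IsChain.nB_succ (h : IsChain X V W F G H) (i : ℕ) (y : Ω) :
    nB V G H (i + 1) y = nB V G H i ((X i).symm y) := h.linkB i y

theorem nB_lt (i : ℕ) {u v : Ω} (huv : u < v) : nB V G H i u < nB V G H i v := by
  unfold nB
  rw [(H i).lt_iff_lt, (V i).symm.lt_iff_lt, (G i).symm.lt_iff_lt]
  exact huv

/-- order 1 or 2, twice: the third node function decreases. -/
theorem IsChain.dec12 (h : IsChain X V W F G H) {i m : ℕ} {y : Ω} (hm : m % 6 = 1 ∨ m % 6 = 2)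
    (hy : At X W F G H i m y) (hy' : At X W F G H (i + 1) m y) :
    nB V G H (i + 1) y < nB V G H i y := by
  rw [h.nB_succ]
  apply nB_lt
  rw [symm_lt_iff']
  obtain ⟨t, rfl⟩ := ex_t (X := X) (F := F) i y
  unfold At at *
  rw [nA_eq, nC_eq X] at hy
  rw [h.nA_succ, h.nC_succ] at hy'
  have hs := h.stage i
  have hx : t < X i t := by
    rcases hy with ⟨k, k1, k2⟩ | ⟨k, k1, k2⟩ | ⟨k, k1, k2⟩ | ⟨k, k1, k2⟩ | ⟨k, k1, k2⟩ | ⟨k, k1, k2⟩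
    · omega
    · exact (s1_facts hs k1 k2).1
    · rcases hy' with ⟨l, l1, l2⟩ | ⟨l, l1, l2⟩ | ⟨l, l1, l2⟩ | ⟨l, l1, l2⟩ | ⟨l, l1, l2⟩ |
        ⟨l, l1, l2⟩
      · omega
      · omega
      · exact (s2_next hs k1 k2).2.2 l2
      all_goals omega
    all_goals omega
  rw [hs.fX.comm, (F i).lt_iff_lt, (X i).lt_iff_lt]
  exact hx

end chain

end Pool.Agent.TH821.Hex
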