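import Pool.Agent.TH821.HexPeriod
import Pool.Agent.TH821.CyclicKernel

set_option autoImplicit false

/-!
# Left-ordered groups and the relations of the positive pretzel chain
-/

namespace Pool.Agent.TH821.Hex

open Pool.Agent.W705.Borr Pool.Agent.TH821.Chain

/-- `f` commutes with `x` and a power of `f` with positive exponent is a power of `x` with
nonnegative exponent. -/
structure Fol {H : Type*} [Group H] (x f : H) (a b : ℕ) : Prop where
  comm : x * f = f * x
  pos : 0 < b
  pow : f ^ b = x ^ a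

theorem Fol.of_pow {H : Type*} [Group H] (x : H) (p : ℕ) : Fol x (x ^ p) p 1 :=
  ⟨(pow_succ' x p).symm.trans (pow_succ x p), one_pos, pow_one _⟩

/-- The relations between the generators `x i, v i, w i` and the elements `f i, g i, h i`. -/
structure Rel {H : Type*} [Group H] {n : ℕ} (x v w f g h : ZMod n → H)
    (a b : Fin 3 → ZMod n → ℕ) : Prop where
  prod : ∀ i, x i * v i * w i = 1
  fx : ∀ i, Fol (x i) (f i) (a 0 i) (b 0 i)
  gv : ∀ i, Fol (v i) (g i) (a 1 i) (b 1 i)
  hw : ∀ i, Fol (w i) (h i) (a 2 i) (b 2 i)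
  relA : ∀ i, f (i + 1) * x (i + 1) * (g (i + 1))⁻¹ = f i * x i * (g i)⁻¹ * w i
  relB : ∀ i, g (i + 1) * v (i + 1) * (h (i + 1))⁻¹ = x i * (g i * v i * (h i)⁻¹)

theorem Rel.relC {H : Type*} [Group H] {n : ℕ} {x v w f g h : ZMod n → H}
    {a b : Fin 3 → ZMod n → ℕ} (R : Rel x v w f g h a b) (i : ZMod n) :
    h (i + 1) * w (i + 1) * (f (i + 1))⁻¹ = h i * (x i)⁻¹ * (f i)⁻¹ := by
  have key : ∀ j, (f j * x j * (g j)⁻¹) * (g j * v j * (h j)⁻¹) = f j * (w j)⁻¹ * (h j)⁻¹ := by
    intro j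
    have h1 : (w j)⁻¹ = x j * v j := by
      rw [inv_eq_iff_mul_eq_one]
      have := R.prod j
      calc w j * (x j * v j) = w j * (x j * v j * w j) * (w j)⁻¹ := by group
        _ = 1 := by rw [this]; group
    rw [h1]; group
  have h2 := key (i + 1)
  rw [R.relA, R.relB] at h2
  have h3 : h (i + 1) * w (i + 1) * (f (i + 1))⁻¹
      = (f (i + 1) * (w (i + 1))⁻¹ * (h (i + 1))⁻¹)⁻¹ := by group
  rw [h3, ← h2]
  have h4 : w i = (x i * v i)⁻¹ := by
    rw [eq_inv_iff_mul_eq_one]
    have := R.prod i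
    calc w i * (x i * v i) = w i * (x i * v i * w i) * (w i)⁻¹ := by group
      _ = 1 := by rw [this]; group
  have h5 : g i * v i = v i * g i := (R.gv i).comm.symm
  have h6 : (x i * v i)⁻¹ * x i * (g i * v i) = g i := by
    rw [h5]; group
  calc (f i * x i * (g i)⁻¹ * w i * (x i * (g i * v i * (h i)⁻¹)))⁻¹
      = (f i * x i * (g i)⁻¹ * ((x i * v i)⁻¹ * x i * (g i * v i)) * (h i)⁻¹)⁻¹ := by
        rw [h4]; group
    _ = _ := by rw [h6]; group

section act
variable {H : Type*} [Group H] [LinearOrder H] (hinv : ∀ a b c : H, a ≤ b ↔ c * a ≤ c * b)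

theorem iter_le' {Ω : Type*} [CompleteLinearOrder Ω] {g : Ω ≃o Ω} {v : Ω} (h : v ≤ g v) :
    ∀ k : ℕ, v ≤ g^[k] v
  | 0 => le_rfl
  | k + 1 => by
    rw [Function.iterate_succ_apply']
    exact h.trans (g.le_iff_le.mpr (iter_le' h k))

theorem up_of_pow {Ω : Type*} [CompleteLinearOrder Ω] {x f : Ω ≃o Ω} {a b : ℕ} (hb : 0 < b)
    (h : ∀ v, f^[b] v = x^[a] v) (v : Ω) (hv : v ≤ x v) : v ≤ f v := by
  by_contra hcon
  rw [not_le] at hcon
  have h1 := iter_lt (X := Ωᵒᵈ) (g := f.dual) (v := v) hcon b hb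
  have h2 : f^[b] v < v := h1
  rw [h] at h2
  exact absurd (iter_le' hv a) (not_le.mpr h2)

theorem follows_of_fol {x f : H} {a b : ℕ} (h : Fol x f a b) :
    Follows (act hinv x) (act hinv f) := by
  have hpow : ∀ v, (act hinv f)^[b] v = (act hinv x)^[a] v := by
    intro v; rw [← act_pow, ← act_pow, h.pow]
  refine ⟨?_, up_of_pow h.pos hpow, ?_⟩
  · intro v; rw [← act_mul, ← act_mul, h.comm]
  · exact up_of_pow (Ω := (LowerSet H)ᵒᵈ) (x := (act hinv x).dual) (f := (act hinv f).dual)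
      h.pos (fun v => hpow v)

include hinv in
/-- In a left-ordered group the relations force triviality for `n ≤ 5`. -/
theorem rel_trivial {n : ℕ} (hn : 0 < n) (hn5 : n ≤ 5) {x v w f g h : ZMod n → H}
    {a b : Fin 3 → ZMod n → ℕ} (R : Rel x v w f g h a b) (i : ZMod n) :
    x i = 1 ∧ v i = 1 := by
  have : NeZero n := ⟨hn.ne'⟩
  obtain ⟨N, hN, hnN⟩ : ∃ N, (N = 3 ∨ N = 4 ∨ N = 5) ∧ n ∣ N := by
    interval_cases n
    · exact ⟨3, by decide, by decide⟩
    · exact ⟨4, by decide, by decide⟩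
    · exact ⟨3, by decide, by decide⟩
    · exact ⟨4, by decide, by decide⟩
    · exact ⟨5, by decide, by decide⟩
  have hN0 : ∀ j : ℕ, ((j + N : ℕ) : ZMod n) = (j : ZMod n) := by
    intro j
    have : ((N : ℕ) : ZMod n) = 0 := (ZMod.natCast_eq_zero_iff N n).mpr hnN
    push_cast
    rw [this, add_zero]
  have hC : IsChain (fun j : ℕ => act hinv (x j)) (fun j : ℕ => act hinv (v j))
      (fun j : ℕ => act hinv (w j)) (fun j : ℕ => act hinv (f j)) (fun j : ℕ => act hinv (g j))
      (fun j : ℕ => act hinv (h j)) := by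
    refine ⟨?_, ?_, ?_, ?_⟩
    · intro j
      refine ⟨?_, follows_of_fol hinv (R.fx _), follows_of_fol hinv (R.gv _),
        follows_of_fol hinv (R.hw _)⟩
      intro u
      rw [← act_mul, ← act_mul, R.prod, act_one]
    · intro j y
      simp only [← act_inv, ← act_mul]
      congr 1
      have := congrArg (fun z => z⁻¹) (R.relA (j : ZMod n))
      simp only [mul_inv_rev, inv_inv] at this
      rw [Nat.cast_add, Nat.cast_one]
      simpa only [mul_assoc] using congrArg (act hinv) this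
    · intro j y
      simp only [← act_inv, ← act_mul]
      rw [Nat.cast_add, Nat.cast_one]
      have := R.relC (j : ZMod n)
      rw [mul_assoc, mul_assoc] at this
      rw [this]
    · intro j y
      simp only [← act_inv, ← act_mul]
      rw [Nat.cast_add, Nat.cast_one]
      have := congrArg (fun z => z⁻¹) (R.relB (j : ZMod n))
      simp only [mul_inv_rev, inv_inv, mul_assoc] at this
      rw [this]
  have hP : Per N (fun j : ℕ => act hinv (x j)) (fun j : ℕ => act hinv (v j))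
      (fun j : ℕ => act hinv (w j)) (fun j : ℕ => act hinv (f j)) (fun j : ℕ => act hinv (g j))
      (fun j : ℕ => act hinv (h j)) := by
    refine ⟨?_, ?_, ?_, ?_, ?_, ?_⟩ <;> intro j <;> simp only [hN0]
  have hi : ((i.val : ℕ) : ZMod n) = i := ZMod.natCast_zmod_val i
  constructor
  · apply eq_one_of_act hinv
    intro y
    have := (hC.fixed hP hN i.val y).1
    simp only [hi] at this
    exact this
  · apply eq_one_of_act hinv
    intro y
    have := (hC.fixed hP hN i.val y).2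
    simp only [hi] at this
    exact this

end act

section kernel
open Pool.Agent.TH821.Cyc
variable {G : Type*} [Group G] {n : ℕ}

theorem cj_mul (s x y : G) (i : ZMod n) : cj s (x * y) i = cj s x i * cj s y i := by
  unfold cj; group

theorem cj_shift (hn : 0 < n) {s : G} (hs : s ^ n = 1) (x : G) (i : ZMod n) :
    cj s x (i + 1) = cj s (s * x * s⁻¹) i := by
  rw [cj_succ hn hs]
  unfold cj
  have h1 : s * s ^ i.val = s ^ i.val * s := (pow_succ' s i.val).symm.trans (pow_succ s i.val)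
  calc s * (s ^ i.val * x * (s ^ i.val)⁻¹) * s⁻¹ = (s * s ^ i.val) * x * (s * s ^ i.val)⁻¹ := by
        group
    _ = _ := by rw [h1]; group

theorem cj_mem (d : G →* Multiplicative (ZMod n)) (s : G) {x : G} (dx : d x = 1) (i : ZMod n) :
    cj s x i ∈ d.ker := by
  show d _ = 1
  unfold cj; rw [map_mul, map_mul, dx, map_inv]; simp

/-- Conjugation by a power of `s` on the kernel of `d`. -/
def ck (d : G →* Multiplicative (ZMod n)) (s : G) (i : ZMod n) : d.ker →* d.ker where
  toFun x := ⟨cj s x.1 i, cj_mem d s x.2 i⟩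
  map_one' := by apply Subtype.ext; show cj s 1 i = 1; unfold cj; simp
  map_mul' x y := by apply Subtype.ext; exact cj_mul s x.1 y.1 i

/-- Homomorphisms from the kernel of `d` to a left-ordered group are trivial, for `n ≤ 5`. -/
theorem hom_trivial (hn : 0 < n) (hn5 : n ≤ 5) {s X V : G} (hs : s ^ n = 1)
    (hgen : ∀ K : Subgroup G, s ∈ K → X ∈ K → V ∈ K → K = ⊤)
    (d : G →* Multiplicative (ZMod n)) (ds : d s = Multiplicative.ofAdd 1) (dX : d X = 1)
    (dV : d V = 1) (p q r : ℕ)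
    (A : s * (X ^ p * X * (V ^ q)⁻¹) * s⁻¹ = X ^ p * X * (V ^ q)⁻¹ * (X * V)⁻¹)
    (B : s * (V ^ q * V * ((X * V)⁻¹ ^ r)⁻¹) * s⁻¹ = X * (V ^ q * V * ((X * V)⁻¹ ^ r)⁻¹))
    {H : Type*} [Group H] [LinearOrder H] (hinv : ∀ a b c : H, a ≤ b ↔ c * a ≤ c * b)
    (φ : d.ker →* H) (g : d.ker) : φ g = 1 := by
  set X' : d.ker := ⟨X, dX⟩ with hX'
  set V' : d.ker := ⟨V, dV⟩ with hV'
  set W' : d.ker := (X' * V')⁻¹ with hW'
  have key : ∀ (i : ZMod n) (x y : d.ker), s * x.1 * s⁻¹ = y.1 →
      φ (ck d s (i + 1) x) = φ (ck d s i y) := by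
    intro i x y hxy
    congr 1
    apply Subtype.ext
    show cj s x.1 (i + 1) = cj s y.1 i
    rw [cj_shift hn hs, hxy]
  have R : Rel (fun i => φ (ck d s i X')) (fun i => φ (ck d s i V')) (fun i => φ (ck d s i W'))
      (fun i => φ (ck d s i X') ^ p) (fun i => φ (ck d s i V') ^ q)
      (fun i => φ (ck d s i W') ^ r) (fun j _ => ![p, q, r] j) (fun _ _ => 1) := by
    refine ⟨?_, ?_, ?_, ?_, ?_, ?_⟩
    · intro i
      show φ (ck d s i X') * φ (ck d s i V') * φ (ck d s i W') = 1
      rw [← map_mul, ← map_mul, ← map_mul, ← map_mul, hW', mul_inv_cancel, map_one, map_one]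
    · intro i; exact Fol.of_pow _ _
    · intro i; exact Fol.of_pow _ _
    · intro i; exact Fol.of_pow _ _
    · intro i
      have := key i (X' ^ p * X' * (V' ^ q)⁻¹) (X' ^ p * X' * (V' ^ q)⁻¹ * W') A
      simpa only [map_mul, map_inv, map_pow] using this
    · intro i
      have := key i (V' ^ q * V' * (W' ^ r)⁻¹) (X' * (V' ^ q * V' * (W' ^ r)⁻¹)) B
      simpa only [map_mul, map_inv, map_pow] using this
  have triv := fun i => rel_trivial hinv hn hn5 R i
  have h1 : N n s X V ≤ φ.ker.map d.ker.subtype := by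
    unfold N
    rw [Subgroup.closure_le]
    rintro _ (⟨i, rfl⟩ | ⟨i, rfl⟩)
    · exact ⟨ck d s i X', (triv i).1, rfl⟩
    · exact ⟨ck d s i V', (triv i).2, rfl⟩
  obtain ⟨g', hg', hgg⟩ := h1 (ker_le hn hs hgen d ds dX dV g.2)
  have : g' = g := Subtype.ext hgg
  rw [← this]; exact hg'

end kernel

end Pool.Agent.TH821.Hex
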