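import Pool.Agent.TH821.HexChain

set_option autoImplicit false

/-!
# The periodic chain of stages: period 3, 4 or 5

Every point is fixed by all `X i` and `V i`.
-/

namespace Pool.Agent.TH821.Hex

variable {Ω : Type*} [CompleteLinearOrder Ω]

/-- The chain has period `N`. -/
structure Per (N : ℕ) (X V W F G H : ℕ → Ω ≃o Ω) : Prop where
  eX : ∀ i, X (i + N) = X i
  eV : ∀ i, V (i + N) = V i
  eW : ∀ i, W (i + N) = W i
  eF : ∀ i, F (i + N) = F i
  eG : ∀ i, G (i + N) = G i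
  eH : ∀ i, H (i + N) = H i

section chain
variable {N : ℕ} {X V W F G H : ℕ → Ω ≃o Ω}

theorem Per.dual (h : Per N X V W F G H) :
    Per (Ω := Ωᵒᵈ) N (du X) (du V) (du W) (du F) (du G) (du H) :=
  ⟨fun i => congrArg OrderIso.dual (h.eX i), fun i => congrArg OrderIso.dual (h.eV i),
    fun i => congrArg OrderIso.dual (h.eW i), fun i => congrArg OrderIso.dual (h.eF i),
    fun i => congrArg OrderIso.dual (h.eG i), fun i => congrArg OrderIso.dual (h.eH i)⟩

theorem Per.at_eq (hp : Per N X V W F G H) {i m : ℕ} {y : Ω} (h : At X W F G H (i + N) m y) :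
    At X W F G H i m y := by
  unfold At nA nC at *
  rw [hp.eX, hp.eW, hp.eF, hp.eG, hp.eH] at h
  exact h

theorem Per.eq_at (hp : Per N X V W F G H) {i m : ℕ} {y : Ω} (h : At X W F G H i m y) :
    At X W F G H (i + N) m y := by
  unfold At nA nC at *
  rw [hp.eX, hp.eW, hp.eF, hp.eG, hp.eH]
  exact h

theorem IsChain.const0 (h : IsChain X V W F G H) {j m : ℕ} {y : Ω} (hm : m % 6 = 0) :
    ∀ k, (∀ l, l ≤ k → At X W F G H (j + l) m y) →
      nC W F H (j + (k + 1)) y < nC W F H j y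
  | 0, hc => h.dec0 hm (hc 0 le_rfl)
  | k + 1, hc =>
    (h.dec0 hm (hc (k + 1) le_rfl)).trans (h.const0 hm k (fun l hl => hc l (by omega)))

theorem IsChain.const12 (h : IsChain X V W F G H) {j m : ℕ} {y : Ω}
    (hm : m % 6 = 1 ∨ m % 6 = 2) :
    ∀ k, (∀ l, l ≤ k + 1 → At X W F G H (j + l) m y) →
      nB V G H (j + (k + 1)) y < nB V G H j y
  | 0, hc => h.dec12 hm (hc 0 (by omega)) (hc 1 le_rfl)
  | k + 1, hc =>
    (h.dec12 hm (hc (k + 1) (by omega)) (hc (k + 1 + 1) le_rfl)).trans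
      (h.const12 hm k (fun l hl => hc l (by omega)))

theorem IsChain.not_const012 (h : IsChain X V W F G H) (hp : Per N X V W F G H) (hN : 0 < N)
    {j m : ℕ} {y : Ω} (hm : m % 6 ≤ 2) (hc : ∀ l, l ≤ N → At X W F G H (j + l) m y) :
    False := by
  obtain ⟨k, rfl⟩ : ∃ k, N = k + 1 := ⟨N - 1, by omega⟩
  rcases Nat.eq_zero_or_pos (m % 6) with h0 | h0
  · have := h.const0 h0 k (fun l hl => hc l (by omega))
    unfold nC at this
    rw [hp.eW, hp.eF, hp.eH] at this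
    exact lt_irrefl _ this
  · have := h.const12 (j := j) (m := m) (y := y) (by omega) k hc
    unfold nB at this
    rw [hp.eV, hp.eG, hp.eH] at this
    exact lt_irrefl _ this

theorem IsChain.not_const (h : IsChain X V W F G H) (hp : Per N X V W F G H) (hN : 0 < N)
    {j m : ℕ} {y : Ω} (hc : ∀ l, l ≤ N → At X W F G H (j + l) m y) : False := by
  rcases le_or_gt (m % 6) 2 with hm | hm
  · exact h.not_const012 hp hN hm hc
  · exact h.dual.not_const012 hp.dual hN (j := j) (m := m + 3) (y := y) (by omega)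
      (fun l hl => (hc l hl).dual)

theorem IsChain.step' (h : IsChain X V W F G H) {i m : ℕ} {y : Ω}
    (hy : At X W F G H i m y) :
    ∃ m', At X W F G H (i + 1) m' y ∧ (m' = m ∨ m' = m + 1 ∨ (m % 3 = 0 ∧ m' = m + 2)) := by
  rcases h.step hy with h1 | h1 | ⟨h0, h1⟩
  · exact ⟨m, h1, Or.inl rfl⟩
  · exact ⟨m + 1, h1, Or.inr (Or.inl rfl)⟩
  · exact ⟨m + 2, h1, Or.inr (Or.inr ⟨h0, rfl⟩)⟩

/-- period 3. -/
theorem IsChain.per3 (h : IsChain X V W F G H) (hp : Per 3 X V W F G H) {i m : ℕ} {y : Ω} :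
    ¬ At X W F G H i m y := by
  intro hy
  obtain ⟨m1, h1, e1⟩ := h.step' hy
  obtain ⟨m2, h2, e2⟩ := h.step' h1
  obtain ⟨m3, h3, e3⟩ := h.step' h2
  have e4 : m3 % 6 = m % 6 := h3.unique (hp.eq_at hy)
  have e5 : m1 = m ∧ m2 = m ∧ m3 = m := by omega
  obtain ⟨rfl, rfl, rfl⟩ := e5
  refine h.not_const hp (by norm_num) (j := i) (m := m3) (y := y) ?_
  intro l hl
  interval_cases l
  · exact hy
  · exact h1
  · exact h2
  · exact h3

/-- A walk in which no double step can occur, with period at most 5. -/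
theorem IsChain.no_double (h : IsChain X V W F G H)
    (hu : ∀ i z, W i z = z → ¬ z < X i z) (hd : ∀ i z, W i z = z → ¬ X i z < z)
    {i m : ℕ} {y : Ω} (hy : At X W F G H i m y) :
    At X W F G H (i + 1) m y ∨ At X W F G H (i + 1) (m + 1) y := by
  rcases h.step hy with h1 | h1 | ⟨h0, h1⟩
  · exact Or.inl h1
  · exact Or.inr h1
  · exfalso
    rcases (by omega : m % 6 = 0 ∨ m % 6 = 3) with h2 | h2
    · obtain ⟨z, z1, z2, _, _⟩ := h.double h2 (by omega) hy h1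
      exact hu i z z1 z2
    · obtain ⟨z, z1, z2, _, _⟩ := h.dual.double (m := m + 3) (m' := m + 2 + 3) (by omega)
        (by omega) hy.dual h1.dual
      exact hd i z z1 z2

theorem IsChain.walk (h : IsChain X V W F G H)
    (hu : ∀ i z, W i z = z → ¬ z < X i z) (hd : ∀ i z, W i z = z → ¬ X i z < z)
    {i m : ℕ} {y : Ω} (hy : At X W F G H i m y) :
    ∀ k, ∃ m', m ≤ m' ∧ m' ≤ m + k ∧ At X W F G H (i + k) m' y
  | 0 => ⟨m, le_rfl, le_rfl, hy⟩
  | k + 1 => by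
    obtain ⟨m', e1, e2, e3⟩ := h.walk hu hd hy k
    rcases h.no_double hu hd e3 with h1 | h1
    · exact ⟨m', e1, by omega, h1⟩
    · exact ⟨m' + 1, by omega, by omega, h1⟩

theorem IsChain.walk_const (h : IsChain X V W F G H)
    (hu : ∀ i z, W i z = z → ¬ z < X i z) (hd : ∀ i z, W i z = z → ¬ X i z < z)
    (hp : Per N X V W F G H) (hN5 : N ≤ 5)
    {i m : ℕ} {y : Ω} (hy : At X W F G H i m y) {k : ℕ} (hk : k ≤ N) :
    At X W F G H (i + k) m y := by
  obtain ⟨m1, e1, e2, e3⟩ := h.walk hu hd hy k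
  obtain ⟨m2, d1, d2, d3⟩ := h.walk hu hd e3 (N - k)
  rw [show i + k + (N - k) = i + N by omega] at d3
  have d4 : m2 % 6 = m % 6 := d3.unique (hp.eq_at hy)
  have d5 : m1 = m := by omega
  rw [d5] at e3
  exact e3

theorem IsChain.no_at (h : IsChain X V W F G H)
    (hu : ∀ i z, W i z = z → ¬ z < X i z) (hd : ∀ i z, W i z = z → ¬ X i z < z)
    (hp : Per N X V W F G H) (hN : 0 < N) (hN5 : N ≤ 5) {i m : ℕ} {y : Ω} :
    ¬ At X W F G H i m y := fun hy =>
  h.not_const hp hN (fun _ hl => h.walk_const hu hd hp hN5 hy hl)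

/-- period 4: no walk starts at order 1. -/
theorem IsChain.per4_aux (h : IsChain X V W F G H) (hp : Per 4 X V W F G H) {i m : ℕ} {y : Ω}
    (hm : m % 3 = 1) : ¬ At X W F G H i m y := by
  intro hy
  obtain ⟨m1, h1, e1⟩ := h.step' hy
  obtain ⟨m2, h2, e2⟩ := h.step' h1
  obtain ⟨m3, h3, e3⟩ := h.step' h2
  obtain ⟨m4, h4, e4⟩ := h.step' h3
  have e5 : m4 % 6 = m % 6 := h4.unique (hp.eq_at hy)
  have e6 : m1 = m ∧ m2 = m ∧ m3 = m ∧ m4 = m := by omega
  obtain ⟨rfl, rfl, rfl, rfl⟩ := e6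
  refine h.not_const hp (by norm_num) (j := i) (m := m4) (y := y) ?_
  intro l hl
  interval_cases l
  · exact hy
  · exact h1
  · exact h2
  · exact h3
  · exact h4

theorem IsChain.per4_up (h : IsChain X V W F G H) (hp : Per 4 X V W F G H) (i : ℕ) (z : Ω)
    (hz : W i z = z) : ¬ z < X i z := fun h1 =>
  h.per4_aux hp (m := 1) rfl (h.at_z hz h1)

/-- period 4. -/
theorem IsChain.per4 (h : IsChain X V W F G H) (hp : Per 4 X V W F G H) {i m : ℕ} {y : Ω} :
    ¬ At X W F G H i m y :=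
  h.no_at (h.per4_up hp) (fun i z hz => h.dual.per4_up hp.dual i z hz) hp (by norm_num)
    (by norm_num)

/-- period 5: the walk from order 1. -/
theorem IsChain.per5_path (h : IsChain X V W F G H) (hp : Per 5 X V W F G H) {i : ℕ} {y : Ω}
    (hy : At X W F G H i 1 y) :
    At X W F G H (i + 1) 2 y ∧ At X W F G H (i + 2) 3 y ∧ At X W F G H (i + 3) 5 y := by
  obtain ⟨m1, h1, e1⟩ := h.step' hy
  obtain ⟨m2, h2, e2⟩ := h.step' h1
  obtain ⟨m3, h3, e3⟩ := h.step' h2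
  obtain ⟨m4, h4, e4⟩ := h.step' h3
  obtain ⟨m5, h5, e5⟩ := h.step' h4
  have e6 : m5 % 6 = 1 := h5.unique (hp.eq_at hy)
  rcases (by omega : (m1 = 1 ∧ m2 = 1 ∧ m3 = 1 ∧ m4 = 1 ∧ m5 = 1) ∨
    (m1 = 2 ∧ m2 = 3 ∧ m3 = 5 ∧ m4 = 6 ∧ m5 = 7)) with ⟨a1, a2, a3, a4, a5⟩ |
    ⟨a1, a2, a3, a4, a5⟩
  · subst a1 a2 a3 a4 a5
    exfalso
    refine h.not_const hp (by norm_num) (j := i) (m := 1) (y := y) ?_
    intro l hl
    interval_cases l
    · exact hy
    · exact h1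
    · exact h2
    · exact h3
    · exact h4
    · exact h5
  · subst a1 a2 a3 a4 a5
    exact ⟨h1, h2, h3⟩

/-- order 2: `y ≤ X y`. -/
theorem IsChain.up2 (h : IsChain X V W F G H) {i m : ℕ} {y : Ω} (hm : m % 6 = 2)
    (hy : At X W F G H i m y) : y ≤ X i y := by
  obtain ⟨t, rfl⟩ := ex_t (X := X) (F := F) i y
  unfold At at *
  rw [nA_eq, nC_eq X] at hy
  have hs := h.stage i
  have hx : t ≤ X i t := by
    rcases hy with ⟨k, k1, k2⟩ | ⟨k, k1, k2⟩ | ⟨k, k1, k2⟩ | ⟨k, k1, k2⟩ | ⟨k, k1, k2⟩ | ⟨k, k1, k2⟩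
    · omega
    · omega
    · exact (s2_facts hs k1 k2).1
    all_goals omega
  rw [hs.fX.comm, (F i).le_iff_le, (X i).le_iff_le]
  exact hx

/-- period 5: from an up fixed point at stage `i` to a down fixed point at stage `i + 3`. -/
theorem IsChain.nest (h : IsChain X V W F G H) (hp : Per 5 X V W F G H) {i : ℕ} {z : Ω}
    (hz : W i z = z) (hx : z < X i z) :
    ∃ z', W (i + 3) z' = z' ∧ X (i + 3) z' < z' ∧
      F (i + 3) (X (i + 3) z') < F i z ∧ F i (X i z) ≤ F (i + 3) z' := by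
  have h1 := h.at_z hz hx
  obtain ⟨h2, h3, h4⟩ := h.per5_path hp h1
  obtain ⟨z', z1, z2, z3, z4⟩ := h.dual.double (i := i + 3) (m := 3 + 3) (m' := 5 + 3)
    (y := F i (X i z)) rfl rfl (At.dual h3) (At.dual h4)
  have z1 : W (i + 3) z' = z' := z1
  have z2 : X (i + 3) z' < z' := z2
  have z3 : F i (X i z) ≤ F (i + 3) z' := z3
  have z4 : F (i + 3) (X (i + 3) z') < F i (X i z) := z4
  refine ⟨z', z1, z2, ?_, z3⟩
  have k1 := h.dual.at_z (i := i + 3) (z := z') z1 z2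
  obtain ⟨k2, _, _⟩ := h.dual.per5_path hp.dual k1
  have k3 := hp.dual.at_eq (i := i) k2
  have k4 := h.dual.up2 rfl k3
  have k5 : X i (F (i + 3) (X (i + 3) z')) ≤ F (i + 3) (X (i + 3) z') := k4
  by_contra hcon
  rw [not_lt] at hcon
  have k6 : X i (F i z) ≤ F (i + 3) (X (i + 3) z') := ((X i).le_iff_le.mpr hcon).trans k5
  rw [(h.stage i).fX.comm] at k6
  exact absurd z4 (not_lt.mpr k6)

theorem IsChain.nest_dual (h : IsChain X V W F G H) (hp : Per 5 X V W F G H) {i : ℕ} {z : Ω}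
    (hz : W i z = z) (hx : X i z < z) :
    ∃ z', W (i + 3) z' = z' ∧ z' < X (i + 3) z' ∧
      F i z < F (i + 3) (X (i + 3) z') ∧ F (i + 3) z' ≤ F i (X i z) :=
  h.dual.nest hp.dual hz hx

theorem IsChain.per5_up (h : IsChain X V W F G H) (hp : Per 5 X V W F G H) (i : ℕ) (z : Ω)
    (hz : W i z = z) : ¬ z < X i z := by
  intro hx
  obtain ⟨z1, a1, b1, c1, d1⟩ := h.nest hp hz hx
  obtain ⟨z2, a2, b2, c2, d2⟩ := h.nest_dual hp a1 b1
  obtain ⟨z3, a3, b3, c3, d3⟩ := h.nest hp a2 b2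
  obtain ⟨z4, a4, b4, c4, d4⟩ := h.nest_dual hp a3 b3
  obtain ⟨z5, a5, b5, c5, d5⟩ := h.nest hp a4 b4
  have e1 : F (i + 3 + 3 + 3 + 3 + 3) (X (i + 3 + 3 + 3 + 3 + 3) z5) < F i z :=
    ((c5.trans_le d4).trans c3).trans_le d2 |>.trans c1
  have e2 : F i (X i z) < F (i + 3 + 3 + 3 + 3 + 3) z5 :=
    ((d1.trans_lt c2).trans_le d3 |>.trans c4).trans_le d5
  have eX : X (i + 3 + 3 + 3 + 3 + 3) = X i := by
    rw [show i + 3 + 3 + 3 + 3 + 3 = i + 5 + 5 + 5 by omega, hp.eX, hp.eX, hp.eX]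
  have eF : F (i + 3 + 3 + 3 + 3 + 3) = F i := by
    rw [show i + 3 + 3 + 3 + 3 + 3 = i + 5 + 5 + 5 by omega, hp.eF, hp.eF, hp.eF]
  rw [eX, eF, (F i).lt_iff_lt] at e1
  rw [eF, (F i).lt_iff_lt] at e2
  have e3 : X i (X i z) < X i z5 := (X i).lt_iff_lt.mpr e2
  have e4 : X i z < X i (X i z) := (X i).lt_iff_lt.mpr hx
  exact lt_irrefl _ (((e4.trans e3).trans e1).trans hx)

/-- period 5. -/
theorem IsChain.per5 (h : IsChain X V W F G H) (hp : Per 5 X V W F G H) {i m : ℕ} {y : Ω} :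
    ¬ At X W F G H i m y :=
  h.no_at (h.per5_up hp) (fun i z hz => h.dual.per5_up hp.dual i z hz) hp (by norm_num)
    (by norm_num)

/-- Period 3, 4 or 5: everything is fixed. -/
theorem IsChain.fixed (h : IsChain X V W F G H) (hp : Per N X V W F G H)
    (hN : N = 3 ∨ N = 4 ∨ N = 5) (i : ℕ) (y : Ω) : X i y = y ∧ V i y = y := by
  have hno : ∀ m, ¬ At X W F G H i m y := by
    intro m
    rcases hN with rfl | rfl | rfl
    · exact h.per3 hp
    · exact h.per4 hp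
    · exact h.per5 hp
  rcases sec_or (nA X F G i y) (nC W F H i y) y with ⟨e1, e2⟩ | ⟨m, hm⟩
  · obtain ⟨t, rfl⟩ := ex_t (X := X) (F := F) i y
    rw [nA_eq] at e1
    rw [nC_eq X] at e2
    obtain ⟨f1, f2, f3⟩ := deg_fix (h.stage i) e1 e2
    have f4 : F i t = t := (h.stage i).fX.fix f1
    rw [f1, f4]
    exact ⟨f1, f2⟩
  · exact absurd hm (hno m)

end chain

end Pool.Agent.TH821.Hex
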