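import Pool.Agent.W705.BorrGroup

set_option autoImplicit false

/-!
# One stage of the positive pretzel chain

`X, V, W` are order automorphisms of a complete linear order with `X V W = 1`, and `F, G, H`
follow `X, V, W`: they commute with them and move every point in the same direction, or not at
all.  For a point `t` we consider

* `y = F X t`, `a = G t`, `c = H W X t` (the node before the stage),
* `y = F X t`, `a' = W⁻¹ G t`, `c' = H t` (the node after the stage).

The six orders of `y, a, c` are arranged in a hexagon; the order after the stage is the same or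
the next one, or (from two of the six orders) the next but one.
-/

namespace Pool.Agent.TH821.Hex

open Pool.Agent.W705.Borr

variable {Ω : Type*} [CompleteLinearOrder Ω]

/-- `F` commutes with `X` and moves every point in the direction of `X`, or not at all. -/
structure Follows (X F : Ω ≃o Ω) : Prop where
  comm : ∀ v, X (F v) = F (X v)
  up : ∀ v, v ≤ X v → v ≤ F v
  down : ∀ v, X v ≤ v → F v ≤ v

/-- One stage. -/
structure Stage (X V W F G H : Ω ≃o Ω) : Prop where
  prod : ∀ v, X (V (W v)) = v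
  fX : Follows X F
  gV : Follows V G
  hW : Follows W H

theorem Follows.dual {X F : Ω ≃o Ω} (h : Follows X F) : Follows (Ω := Ωᵒᵈ) X.dual F.dual :=
  ⟨fun v => h.comm v, fun v hv => h.down v hv, fun v hv => h.up v hv⟩

theorem Stage.dual {X V W F G H : Ω ≃o Ω} (h : Stage X V W F G H) :
    Stage (Ω := Ωᵒᵈ) X.dual V.dual W.dual F.dual G.dual H.dual :=
  ⟨fun v => h.prod v, h.fX.dual, h.gV.dual, h.hW.dual⟩

theorem Follows.fix {X F : Ω ≃o Ω} (h : Follows X F) {v : Ω} (hv : X v = v) : F v = v :=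
  le_antisymm (h.down v hv.le) (h.up v hv.ge)

theorem lt_symm_iff (g : Ω ≃o Ω) {u v : Ω} : u < g.symm v ↔ g u < v := by
  rw [← g.lt_iff_lt, g.apply_symm_apply]

theorem symm_lt_iff' (g : Ω ≃o Ω) {u v : Ω} : g.symm u < v ↔ u < g v := by
  rw [← g.lt_iff_lt, g.apply_symm_apply]

theorem le_symm_iff (g : Ω ≃o Ω) {u v : Ω} : u ≤ g.symm v ↔ g u ≤ v := by
  rw [← g.le_iff_le, g.apply_symm_apply]

theorem symm_le_iff' (g : Ω ≃o Ω) {u v : Ω} : g.symm u ≤ v ↔ u ≤ g v := by
  rw [← g.le_iff_le, g.apply_symm_apply]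

theorem fix_of_symm {g : Ω ≃o Ω} {v : Ω} (h : g.symm v = v) : g v = v := by
  have := congrArg g h
  rw [g.apply_symm_apply] at this
  exact this.symm

/-- up at `u`, not up at `v ≥ u`: a fixed point in `(u, v]`. -/
theorem fixUD (g : Ω ≃o Ω) {u v : Ω} (huv : u ≤ v) (hu : u < g u) (hv : g v ≤ v) :
    ∃ r, u < r ∧ r ≤ v ∧ g r = r := ivt' g huv hv hu

/-- down at `u`, not down at `v ≥ u`: a fixed point in `(u, v]`. -/
theorem fixDU (g : Ω ≃o Ω) {u v : Ω} (huv : u ≤ v) (hu : g u < u) (hv : v ≤ g v) :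
    ∃ r, u < r ∧ r ≤ v ∧ g r = r := by
  obtain ⟨r, r1, r2, r3⟩ := ivt' g.symm huv ((symm_le_iff' g).mpr hv) ((lt_symm_iff g).mpr hu)
  exact ⟨r, r1, r2, fix_of_symm r3⟩

/-- not up at `u`, up at `v ≥ u`: a fixed point in `[u, v)`. -/
theorem fixNU (g : Ω ≃o Ω) {u v : Ω} (huv : u ≤ v) (hu : g u ≤ u) (hv : v < g v) :
    ∃ r, u ≤ r ∧ r < v ∧ g r = r := ivt g huv hu hv

section stage
variable {X V W F G H : Ω ≃o Ω}

theorem Stage.symmW (h : Stage X V W F G H) (v : Ω) : W.symm v = X (V v) := by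
  have := h.prod (W.symm v)
  rw [W.apply_symm_apply] at this
  exact this.symm

theorem Stage.vt (h : Stage X V W F G H) (t : Ω) : V (W (X t)) = t := by
  have := h.prod (X t)
  exact X.injective this

/-- If `H t` is compared with something above the orbit: `W` up at `t`, not up at `s > t`. -/
theorem Stage.Ht_lt (h : Stage X V W F G H) {t s : Ω} (hts : t < s) (hs : W s ≤ s) : H t < s := by
  rcases le_or_gt (W t) t with h1 | h1
  · exact lt_of_le_of_lt (h.hW.down t h1) hts
  · obtain ⟨r, r1, r2, r3⟩ := fixUD W hts.le h1 hs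
    have h2 : H t < H r := H.lt_iff_lt.mpr r1
    rw [h.hW.fix r3] at h2
    exact lt_of_lt_of_le h2 r2

/-- order `a ≤ c < y`: facts. -/
theorem s1_facts (h : Stage X V W F G H) {t : Ω} (h1 : G t ≤ H (W (X t)))
    (h2 : H (W (X t)) < F (X t)) : t < X t ∧ t ≤ W (X t) := by
  have hx : t < X t := by
    by_contra hcon
    rw [not_lt] at hcon
    have hy : F (X t) ≤ X t := h.fX.down _ (X.le_iff_le.mpr hcon)
    have h3 : W (X t) < X t := by
      by_contra h4
      rw [not_lt] at h4
      have h5 : W (X t) ≤ H (W (X t)) := h.hW.up _ (W.le_iff_le.mpr h4)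
      exact absurd (lt_of_le_of_lt (h4.trans h5) h2) (not_lt.mpr hy)
    have h4 : W (X t) < t := lt_of_lt_of_le h3 hcon
    have h5 : t ≤ V t := by
      have := V.le_iff_le.mpr h4.le
      rw [h.vt] at this
      exact this
    have h6 : t ≤ G t := h.gV.up _ h5
    exact absurd (lt_of_le_of_lt (h6.trans h1) h2) (not_lt.mpr (hy.trans hcon))
  refine ⟨hx, ?_⟩
  by_contra hcon
  rw [not_le] at hcon
  have h5 : t ≤ V t := by
    have := V.le_iff_le.mpr hcon.le
    rw [h.vt] at this
    exact this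
  have h6 : t ≤ G t := h.gV.up _ h5
  have h7 : W (X t) ≤ X t := (hcon.trans hx).le
  have h8 : H (W (X t)) ≤ W (X t) := h.hW.down _ (W.le_iff_le.mpr h7)
  exact absurd (h6.trans (h1.trans h8)) (not_le.mpr hcon)

/-- order `a ≤ c < y`: the next order is the same or the next one. -/
theorem s1_next (h : Stage X V W F G H) {t : Ω} (h1 : G t ≤ H (W (X t)))
    (h2 : H (W (X t)) < F (X t)) : H t < F (X t) ∧ W.symm (G t) ≤ F (X t) := by
  obtain ⟨hx, hv⟩ := s1_facts h h1 h2
  have hy : X t ≤ F (X t) := h.fX.up _ (X.le_iff_le.mpr hx.le)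
  constructor
  · rcases le_or_gt (W (X t)) (X t) with h3 | h3
    · exact lt_of_lt_of_le (h.Ht_lt hx h3) hy
    · have h4 : H t < H (W (X t)) := H.lt_iff_lt.mpr (hx.trans h3)
      exact h4.trans h2
  · have h3 : V t ≤ t := by
      have := V.le_iff_le.mpr hv
      rwa [h.vt] at this
    have h4 : G t ≤ t := h.gV.down _ h3
    have h5 : V (G t) ≤ t := (V.le_iff_le.mpr h4).trans h3
    rw [h.symmW]
    exact (X.le_iff_le.mpr h5).trans hy

/-- `V` is down at `t` iff `t` lies below `W X t`. -/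
theorem Stage.v_down_iff (h : Stage X V W F G H) (t : Ω) : V t < t ↔ t < W (X t) := by
  rw [← V.lt_iff_lt (x := t) (y := W (X t)), h.vt]

theorem Stage.v_up_iff (h : Stage X V W F G H) (t : Ω) : t < V t ↔ W (X t) < t := by
  rw [← V.lt_iff_lt (x := W (X t)) (y := t), h.vt]

/-- order `c < a ≤ y`: facts. -/
theorem s2_facts (h : Stage X V W F G H) {t : Ω} (h1 : H (W (X t)) < G t)
    (h2 : G t ≤ F (X t)) : t ≤ X t ∧ (t < X t → W (X t) < X t) := by
  constructor
  · by_contra hcon
    rw [not_le] at hcon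
    have hy : F (X t) ≤ X t := h.fX.down _ (X.le_iff_le.mpr hcon.le)
    have ha : G t < t := lt_of_le_of_lt (h2.trans hy) hcon
    have hv : V t < t := by
      by_contra h3
      rw [not_lt] at h3
      exact absurd (h.gV.up _ h3) (not_le.mpr ha)
    have h4 : t < W (X t) := (h.v_down_iff t).mp hv
    have h5 : W (X t) ≤ H (W (X t)) := h.hW.up _ (W.le_iff_le.mpr (hcon.trans h4).le)
    exact absurd (lt_of_le_of_lt h5 h1) (not_lt.mpr (ha.trans h4).le)
  · intro hx
    by_contra h3
    rw [not_lt] at h3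
    have h4 : t < W (X t) := lt_of_lt_of_le hx h3
    have h5 : V t < t := (h.v_down_iff t).mpr h4
    have h6 : G t ≤ t := h.gV.down _ h5.le
    have h7 : W (X t) ≤ H (W (X t)) := h.hW.up _ (W.le_iff_le.mpr h3)
    exact absurd (lt_of_le_of_lt h7 h1) (not_lt.mpr (h6.trans h4.le))

/-- order `c < a ≤ y`: the next order is the same or the next one; and if `X` fixes `t` then it
is the next one. -/
theorem s2_next (h : Stage X V W F G H) {t : Ω} (h1 : H (W (X t)) < G t)
    (h2 : G t ≤ F (X t)) :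
    H t ≤ F (X t) ∧ H t < W.symm (G t) ∧ (W.symm (G t) ≤ F (X t) → t < X t) := by
  obtain ⟨hx, hw⟩ := s2_facts h h1 h2
  rcases hx.eq_or_lt with hx | hx
  · have e1 : X t = t := hx.symm
    have e2 : F t = t := h.fX.fix e1
    rw [e1] at h1 h2 ⊢
    rw [e2] at h2 ⊢
    have hv : t < V t := by
      rcases lt_trichotomy (V t) t with h3 | h3 | h3
      · have h4 := (h.v_down_iff t).mp h3
        rw [e1] at h4
        have h5 : W t ≤ H (W t) := h.hW.up _ (W.le_iff_le.mpr h4.le)
        exact absurd (lt_of_le_of_lt (h4.le.trans h5) h1) (not_lt.mpr h2)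
      · have h4 : W t = t := by
          have := h.vt t
          rw [e1] at this
          exact V.injective (this.trans h3.symm)
        rw [h4, h.hW.fix h4, h.gV.fix h3] at h1
        exact absurd h1 (lt_irrefl _)
      · exact h3
    have h5 : W t < t := by
      have := (h.v_up_iff t).mp hv
      rwa [e1] at this
    have h6 : G t = t := le_antisymm h2 (h.gV.up _ hv.le)
    have h7 : H t ≤ t := h.hW.down _ h5.le
    have h8 : t < W.symm (G t) := by rw [h6]; exact (lt_symm_iff W).mpr h5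
    exact ⟨h7, lt_of_le_of_lt h7 h8, fun h9 => absurd h9 (not_le.mpr h8)⟩
  · have hw := hw hx
    have hy : X t ≤ F (X t) := h.fX.up _ (X.le_iff_le.mpr hx.le)
    refine ⟨(h.Ht_lt hx hw.le).le.trans hy, ?_, fun _ => hx⟩
    rcases le_or_gt t (V t) with hv | hv
    · have h3 : W (X t) ≤ t := by
        rw [← V.le_iff_le, h.vt]; exact hv
      have h4 : W t < t := lt_of_lt_of_le (W.lt_iff_lt.mpr hx) h3
      have h5 : t ≤ G t := h.gV.up _ hv
      have h6 : t < W.symm t := (lt_symm_iff W).mpr h4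
      exact lt_of_le_of_lt (h.hW.down _ h4.le) (lt_of_lt_of_le h6 (W.symm.le_iff_le.mpr h5))
    · have h3 : t < W (X t) := (h.v_down_iff t).mp hv
      have h4 : H t < H (W (X t)) := H.lt_iff_lt.mpr h3
      rcases le_or_gt (W (G t)) (G t) with h5 | h5
      · exact lt_of_lt_of_le (h4.trans h1) ((le_symm_iff W).mpr h5)
      · have h6 : W (H (W (X t))) ≤ H (W (X t)) := by
          rw [h.hW.comm]
          exact H.le_iff_le.mpr (W.le_iff_le.mpr hw.le)
        obtain ⟨r, r1, r2, r3⟩ := fixNU W h1.le h6 h5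
        have h7 : r < W.symm (G t) := by
          rw [lt_symm_iff, r3]; exact r2
        exact h4.trans (lt_of_le_of_lt r1 h7)

/-- order `a < y ≤ c`: facts. -/
theorem s0_facts (h : Stage X V W F G H) {t : Ω} (h1 : G t < F (X t))
    (h2 : F (X t) ≤ H (W (X t))) : X t ≤ W (X t) ∧ t < W (X t) := by
  have hw : X t ≤ W (X t) := by
    by_contra hcon
    rw [not_le] at hcon
    have h3 : H (W (X t)) ≤ W (X t) := h.hW.down _ (W.le_iff_le.mpr hcon.le)
    have h4 : F (X t) < X t := lt_of_le_of_lt (h2.trans h3) hcon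
    have h5 : X t < t := by
      by_contra h6
      rw [not_lt] at h6
      exact absurd (h.fX.up _ (X.le_iff_le.mpr h6)) (not_le.mpr h4)
    have h6 : t < V t := (h.v_up_iff t).mpr (hcon.trans h5)
    have h7 : t ≤ G t := h.gV.up _ h6.le
    exact absurd (lt_of_le_of_lt h7 h1) (not_lt.mpr (h4.trans h5).le)
  refine ⟨hw, ?_⟩
  by_contra hcon
  rw [not_lt] at hcon
  have h3 : t ≤ V t := by
    have := V.le_iff_le.mpr hcon
    rwa [h.vt] at this
  have h4 : t ≤ G t := h.gV.up _ h3
  have h5 : X t ≤ t := hw.trans hcon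
  have h6 : F (X t) ≤ X t := h.fX.down _ (X.le_iff_le.mpr h5)
  exact absurd (lt_of_le_of_lt h4 h1) (not_lt.mpr (h6.trans h5))

/-- order `a < y ≤ c`: the next order has `a' < y` and `c' < c`. -/
theorem s0_next (h : Stage X V W F G H) {t : Ω} (h1 : G t < F (X t))
    (h2 : F (X t) ≤ H (W (X t))) : W.symm (G t) < F (X t) ∧ H t < H (W (X t)) := by
  obtain ⟨hw, ht⟩ := s0_facts h h1 h2
  have hv : V t < t := (h.v_down_iff t).mpr ht
  refine ⟨?_, H.lt_iff_lt.mpr ht⟩
  have hg : G t ≤ t := h.gV.down _ hv.le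
  have hvg : V (G t) < G t := by
    rw [h.gV.comm]; exact G.lt_iff_lt.mpr hv
  rw [h.symmW]
  rcases le_or_gt t (X t) with hx | hx
  · have hy : X t ≤ F (X t) := h.fX.up _ (X.le_iff_le.mpr hx)
    exact lt_of_lt_of_le (X.lt_iff_lt.mpr (lt_of_lt_of_le hvg hg)) hy
  · have h3 : X (V (G t)) < X (F (X t)) := X.lt_iff_lt.mpr (hvg.trans h1)
    have h4 : X (F (X t)) ≤ F (X t) := by
      rw [h.fX.comm]
      exact F.le_iff_le.mpr (X.le_iff_le.mpr hx.le)
    exact lt_of_lt_of_le h3 h4

/-- order `a < y ≤ c` followed by `c' < a' ≤ y`: a fixed point of `W`. -/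
theorem s0_double (h : Stage X V W F G H) {t : Ω} (h1 : G t < F (X t))
    (h2 : F (X t) ≤ H (W (X t))) (h3 : H t < W.symm (G t)) :
    ∃ z, W z = z ∧ z < X z ∧ F z ≤ F (X t) ∧ F (X t) < F (X z) := by
  obtain ⟨hw, ht⟩ := s0_facts h h1 h2
  have hv : V t < t := (h.v_down_iff t).mpr ht
  have hg : G t ≤ t := h.gV.down _ hv.le
  have hwt : W t < t := by
    by_contra hcon
    rw [not_lt] at hcon
    have h4 : t ≤ H t := h.hW.up _ hcon
    have h5 : W.symm (G t) ≤ t := by
      rw [symm_le_iff']; exact hg.trans hcon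
    exact absurd (lt_of_lt_of_le h3 h5) (not_lt.mpr h4)
  have hx : t < X t := by
    by_contra hcon
    rw [not_lt] at hcon
    have h4 : W (X t) ≤ W t := W.le_iff_le.mpr hcon
    exact absurd (ht.trans_le h4) (not_lt.mpr hwt.le)
  obtain ⟨z, z1, z2, z3⟩ := fixDU W hx.le hwt hw
  exact ⟨z, z3, lt_of_le_of_lt z2 (X.lt_iff_lt.mpr z1), F.le_iff_le.mpr z2,
    F.lt_iff_lt.mpr (X.lt_iff_lt.mpr z1)⟩

/-- from a fixed point of `W` moved up by `X`: the order after the stage is `a' ≤ c' < y`. -/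
theorem z_next (h : Stage X V W F G H) {z : Ω} (h1 : W z = z) (h2 : z < X z) :
    W.symm (G z) ≤ H z ∧ H z < F (X z) := by
  have h3 : H z = z := h.hW.fix h1
  have h4 : z < W (X z) := by
    have := W.lt_iff_lt.mpr h2
    rwa [h1] at this
  have h5 : G z ≤ z := h.gV.down _ ((h.v_down_iff z).mpr h4).le
  rw [h3]
  refine ⟨?_, lt_of_lt_of_le h2 (h.fX.up _ (X.le_iff_le.mpr h2.le))⟩
  rw [symm_le_iff', h1]
  exact h5

theorem deg_aux (h : Stage X V W F G H) {t : Ω} (h1 : G t = F (X t))
    (h2 : H (W (X t)) = F (X t)) : ¬ t < X t := by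
  intro hx
  have hy : X t ≤ F (X t) := h.fX.up _ (X.le_iff_le.mpr hx.le)
  have hg : t < G t := by rw [h1]; exact lt_of_lt_of_le hx hy
  have hv : t < V t := by
    by_contra h3
    rw [not_lt] at h3
    exact absurd (h.gV.down _ h3) (not_le.mpr hg)
  have h3 : W (X t) < t := (h.v_up_iff t).mp hv
  have h4 : H (W (X t)) ≤ W (X t) := h.hW.down _ (W.le_iff_le.mpr (h3.trans hx).le)
  rw [h2] at h4
  exact absurd (lt_of_le_of_lt (hy.trans h4) h3) (not_lt.mpr hx.le)

/-- if `y = a = c` then everything is fixed. -/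
theorem deg_fix (h : Stage X V W F G H) {t : Ω} (h1 : G t = F (X t))
    (h2 : H (W (X t)) = F (X t)) : X t = t ∧ V t = t ∧ W t = t := by
  have hx : X t = t := by
    apply le_antisymm
    · exact not_lt.mp (deg_aux h h1 h2)
    · exact not_lt.mp (deg_aux h.dual (t := t) h1 h2)
  have hf : F t = t := h.fX.fix hx
  have hv := h.vt t
  rw [hx] at h1 h2 hv
  rw [hf] at h1 h2
  have hw : W t = t := by
    apply le_antisymm
    · by_contra h3
      rw [not_le] at h3
      have h4 : W t ≤ H (W t) := h.hW.up _ (W.le_iff_le.mpr h3.le)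
      rw [h2] at h4
      exact absurd h4 (not_le.mpr h3)
    · by_contra h3
      rw [not_le] at h3
      have h4 : H (W t) ≤ W t := h.hW.down _ (W.le_iff_le.mpr h3.le)
      rw [h2] at h4
      exact absurd h4 (not_le.mpr h3)
  rw [hw] at hv
  exact ⟨hx, hv, hw⟩

end stage

end Pool.Agent.TH821.Hex
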