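import Pool.Agent.TH821.HexGroup

set_option autoImplicit false

/-!
# From the orbifold group of a pretzel link with `k` columns to the chain relations

Elements `a b` (`b` modulo `k`) of order dividing three of a group `G`, with the relations
of a pretzel link with `k` columns of `2 p b + 1` crossings.  In the kernel of the homomorphism to
`Z/3` that sends all `a b` to `1`, the three conjugates by powers of `a b` of the inverse of
`a b * (a (b + 1))⁻¹` satisfy the relations of the positive pretzel chain of length `k`.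
-/

namespace Pool.Agent.TH821.Three

open Pool.Agent.TH821.Hex

section abs
variable {G : Type*} [Group G]

theorem conj_rel {α β γ : G} {l l' : ℕ}
    (h : (α * β⁻¹) ^ (-(l : ℤ) - 1) * α * (α * β⁻¹) ^ ((l : ℤ) + 1) *
      ((β * γ⁻¹) ^ (-(l' : ℤ)) * γ⁻¹ * (β * γ⁻¹) ^ (l' : ℤ)) = 1) :
    ((β * γ⁻¹) ^ l')⁻¹ * γ * (β * γ⁻¹) ^ l' =
      ((α * β⁻¹) ^ l)⁻¹ * β * (α * β⁻¹) ^ l * (α * β⁻¹) := by
  have h1 : (α * β⁻¹) ^ (-(l : ℤ) - 1) * α * (α * β⁻¹) ^ ((l : ℤ) + 1) =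
      ((α * β⁻¹) ^ l)⁻¹ * β * (α * β⁻¹) ^ l * (α * β⁻¹) := by
    have e1 : (α * β⁻¹) ^ (-(l : ℤ) - 1) = ((α * β⁻¹) ^ l)⁻¹ * (α * β⁻¹)⁻¹ := by
      rw [zpow_sub_one, zpow_neg, zpow_natCast]
    have e2 : (α * β⁻¹) ^ ((l : ℤ) + 1) = (α * β⁻¹) ^ l * (α * β⁻¹) := by
      rw [zpow_add_one, zpow_natCast]
    rw [e1, e2]; group
  rw [h1] at h
  have e3 : (β * γ⁻¹) ^ (-(l' : ℤ)) * γ⁻¹ * (β * γ⁻¹) ^ (l' : ℤ) =
      (((β * γ⁻¹) ^ l')⁻¹ * γ * (β * γ⁻¹) ^ l')⁻¹ := by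
    rw [zpow_neg, zpow_natCast]; group
  rw [e3, mul_inv_eq_one] at h
  exact h.symm

theorem inv_of_cube {α : G} (h : α ^ 3 = 1) : α⁻¹ = α * α := by
  have h1 : α * (α * α) = 1 := by rw [← mul_assoc, ← pow_two, ← pow_succ]; exact h
  exact inv_eq_of_mul_eq_one_right h1

theorem relA {α β γ : G} {l l' : ℕ} (hα : α ^ 3 = 1) (hβ : β ^ 3 = 1)
    (h : ((β * γ⁻¹) ^ l')⁻¹ * γ * (β * γ⁻¹) ^ l' =
      ((α * β⁻¹) ^ l)⁻¹ * β * (α * β⁻¹) ^ l * (α * β⁻¹)) :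
    ((β * γ⁻¹)⁻¹) ^ l' * (β * γ⁻¹)⁻¹ * ((β * (β * γ⁻¹)⁻¹ * β⁻¹) ^ l')⁻¹ =
      ((α * β⁻¹)⁻¹) ^ l * (α * β⁻¹)⁻¹ * ((α * (α * β⁻¹)⁻¹ * α⁻¹) ^ l)⁻¹ *
        (α ^ 2 * (α * β⁻¹)⁻¹ * (α ^ 2)⁻¹) := by
  rw [conj_pow, conj_pow, inv_pow, inv_pow]
  have e1 : ((β * γ⁻¹) ^ l')⁻¹ * (β * γ⁻¹)⁻¹ * (β * ((β * γ⁻¹) ^ l')⁻¹ * β⁻¹)⁻¹ =
      (((β * γ⁻¹) ^ l')⁻¹ * γ * (β * γ⁻¹) ^ l') * β⁻¹ := by group
  rw [e1, h]
  have e2 : ((α * β⁻¹) ^ l)⁻¹ * β * (α * β⁻¹) ^ l * (α * β⁻¹) * β⁻¹ =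
      ((α * β⁻¹) ^ l)⁻¹ * β * (α * β⁻¹) ^ l * α * (β⁻¹ * β⁻¹) := by group
  have e3 : β⁻¹ * β⁻¹ = β := by
    have := inv_of_cube hβ
    calc β⁻¹ * β⁻¹ = (β * β)⁻¹ := by group
      _ = (β⁻¹)⁻¹ := by rw [this]
      _ = β := inv_inv β
  have e4 : ((α * β⁻¹) ^ l)⁻¹ * (α * β⁻¹)⁻¹ * (α * ((α * β⁻¹) ^ l)⁻¹ * α⁻¹)⁻¹ *
      (α ^ 2 * (α * β⁻¹)⁻¹ * (α ^ 2)⁻¹) =
      ((α * β⁻¹) ^ l)⁻¹ * β * (α * β⁻¹) ^ l * α * β * (α ^ 3)⁻¹ := by group
  rw [e2, e3, e4, hα]; group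

theorem relB {α β γ : G} {l l' : ℕ} (hα : α ^ 3 = 1) (hβ : β ^ 3 = 1)
    (h : ((β * γ⁻¹) ^ l')⁻¹ * γ * (β * γ⁻¹) ^ l' =
      ((α * β⁻¹) ^ l)⁻¹ * β * (α * β⁻¹) ^ l * (α * β⁻¹)) :
    (β * (β * γ⁻¹)⁻¹ * β⁻¹) ^ l' * (β * (β * γ⁻¹)⁻¹ * β⁻¹) *
        ((β ^ 2 * (β * γ⁻¹)⁻¹ * (β ^ 2)⁻¹) ^ l')⁻¹ =
      (α * β⁻¹)⁻¹ * ((α * (α * β⁻¹)⁻¹ * α⁻¹) ^ l * (α * (α * β⁻¹)⁻¹ * α⁻¹) *
        ((α ^ 2 * (α * β⁻¹)⁻¹ * (α ^ 2)⁻¹) ^ l)⁻¹) := by
  rw [conj_pow, conj_pow, conj_pow, conj_pow, inv_pow, inv_pow]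
  have e1 : β * ((β * γ⁻¹) ^ l')⁻¹ * β⁻¹ * (β * (β * γ⁻¹)⁻¹ * β⁻¹) *
      (β ^ 2 * ((β * γ⁻¹) ^ l')⁻¹ * (β ^ 2)⁻¹)⁻¹ =
      β * (((β * γ⁻¹) ^ l')⁻¹ * γ * (β * γ⁻¹) ^ l') * (β ^ 2)⁻¹ := by group
  rw [e1, h]
  have e2 : β * (((α * β⁻¹) ^ l)⁻¹ * β * (α * β⁻¹) ^ l * (α * β⁻¹)) * (β ^ 2)⁻¹ =
      β * (((α * β⁻¹) ^ l)⁻¹ * β * (α * β⁻¹) ^ l) * α * (β ^ 3)⁻¹ := by group
  have e3 : (α * β⁻¹)⁻¹ * (α * ((α * β⁻¹) ^ l)⁻¹ * α⁻¹ * (α * (α * β⁻¹)⁻¹ * α⁻¹) *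
      (α ^ 2 * ((α * β⁻¹) ^ l)⁻¹ * (α ^ 2)⁻¹)⁻¹) =
      β * (((α * β⁻¹) ^ l)⁻¹ * β * (α * β⁻¹) ^ l) * (α * (α ^ 3)⁻¹) := by group
  rw [e2, e3, hα, hβ]; group

theorem prod_one {α β : G} (hα : α ^ 3 = 1) (hβ : β ^ 3 = 1) :
    (α * β⁻¹)⁻¹ * (α * (α * β⁻¹)⁻¹ * α⁻¹) * (α ^ 2 * (α * β⁻¹)⁻¹ * (α ^ 2)⁻¹) = 1 := by
  calc (α * β⁻¹)⁻¹ * (α * (α * β⁻¹)⁻¹ * α⁻¹) * (α ^ 2 * (α * β⁻¹)⁻¹ * (α ^ 2)⁻¹)
      = β * β * β * (α ^ 3)⁻¹ := by group
    _ = β ^ 3 * (α ^ 3)⁻¹ := by rw [pow_succ β, pow_two]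
    _ = 1 := by rw [hα, hβ]; group

/-- Kernel of a homomorphism to `Z/n`. -/
theorem ker_le_of {n : ℕ} (N : Subgroup G) [N.Normal] (s : G) (hs : s ^ n = 1) {S : Set G}
    (hS : Subgroup.closure S = ⊤) (h : ∀ g ∈ S, g * s⁻¹ ∈ N)
    (d : G →* Multiplicative (ZMod n)) (hN : N ≤ d.ker) (ds : d s = Multiplicative.ofAdd 1) :
    d.ker ≤ N := by
  intro g hg
  have h1 : (⊤ : Subgroup G) ≤
      (Subgroup.zpowers (QuotientGroup.mk' N s)).comap (QuotientGroup.mk' N) := by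
    rw [← hS, Subgroup.closure_le]
    intro x hx
    refine ⟨1, ?_⟩
    show (QuotientGroup.mk' N s) ^ (1 : ℤ) = QuotientGroup.mk' N x
    rw [zpow_one]
    apply (QuotientGroup.mk'_eq_mk' N).mpr
    refine ⟨s⁻¹ * x, ?_, by group⟩
    have := (inferInstance : N.Normal).conj_mem _ (h x hx) s⁻¹
    have e : s⁻¹ * (x * s⁻¹) * s⁻¹⁻¹ = s⁻¹ * x := by group
    rwa [e] at this
  obtain ⟨m, hm⟩ := h1 (Subgroup.mem_top g)
  have hm' : QuotientGroup.mk' N (s ^ m) = QuotientGroup.mk' N g := by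
    rw [map_zpow]; exact hm
  obtain ⟨z, hz, hz2⟩ := (QuotientGroup.mk'_eq_mk' N).mp hm'
  have hd : d (s ^ m) = 1 := by
    have h2 : d (s ^ m * z) = 1 := by rw [hz2]; exact hg
    rw [map_mul, (hN hz : d z = 1), mul_one] at h2
    exact h2
  rw [map_zpow, ds, ← ofAdd_zsmul] at hd
  have h5 : (m : ZMod n) = 0 := by
    have := Multiplicative.ofAdd.injective (hd.trans ofAdd_zero.symm)
    simpa using this
  rw [ZMod.intCast_zmod_eq_zero_iff_dvd] at h5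
  obtain ⟨l, rfl⟩ := h5
  rw [zpow_mul, zpow_natCast, hs, one_zpow, one_mul] at hz2
  rw [← hz2]; exact hz

end abs

section main
variable {G : Type*} [Group G] {k : ℕ}

/-- The generators of the kernel. -/
def tt (a : ZMod k → G) (b : ZMod k) (i : ℕ) : G :=
  a b ^ i * (a b * (a (b + 1))⁻¹)⁻¹ * (a b ^ i)⁻¹

/-- The subgroup they generate. -/
def NN (a : ZMod k → G) : Subgroup G :=
  Subgroup.closure (Set.range fun w : ZMod k × ℕ => tt a w.1 w.2)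

theorem tt_mem (a : ZMod k → G) (b : ZMod k) (i : ℕ) : tt a b i ∈ NN a :=
  Subgroup.subset_closure ⟨(b, i), rfl⟩

theorem tt_succ (a : ZMod k → G) (b : ZMod k) (i : ℕ) :
    tt a b (i + 1) = a b * tt a b i * (a b)⁻¹ := by
  unfold tt; rw [pow_succ']; group

theorem tt_three {a : ZMod k → G} (ha : ∀ b, a b ^ 3 = 1) (b : ZMod k) (i : ℕ) :
    tt a b i = tt a b (i % 3) := by
  unfold tt
  rw [pow_eq_pow_mod i (ha b)]

theorem diff_mem (a : ZMod k → G) (b : ZMod k) (m : ℕ) : a (b + m) * (a b)⁻¹ ∈ NN a := by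
  induction m with
  | zero =>
    have : a (b + ((0 : ℕ) : ZMod k)) * (a b)⁻¹ = 1 := by
      rw [Nat.cast_zero, add_zero, mul_inv_cancel]
    rw [this]; exact one_mem _
  | succ m ih =>
    have h1 := tt_mem a (b + m) 0
    have h2 := mul_mem h1 ih
    have h3 : tt a (b + m) 0 * (a (b + m) * (a b)⁻¹) = a (b + (m + 1 : ℕ)) * (a b)⁻¹ := by
      unfold tt
      rw [Nat.cast_succ, ← add_assoc]
      group
    rw [h3] at h2
    exact h2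

theorem diff_mem' (hk : 0 < k) (a : ZMod k → G) (b c : ZMod k) : a c * (a b)⁻¹ ∈ NN a := by
  have : NeZero k := ⟨hk.ne'⟩
  have h1 := diff_mem a b (c - b).val
  rw [ZMod.natCast_zmod_val, add_sub_cancel] at h1
  exact h1

theorem conj_a_mem (hk : 0 < k) (a : ZMod k → G) (c : ZMod k) {x : G} (hx : x ∈ NN a) :
    a c * x * (a c)⁻¹ ∈ NN a := by
  induction hx using Subgroup.closure_induction with
  | mem x hx =>
    obtain ⟨⟨b, i⟩, rfl⟩ := hx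
    have h1 : a c * tt a b i * (a c)⁻¹ =
        (a c * (a b)⁻¹) * tt a b (i + 1) * (a c * (a b)⁻¹)⁻¹ := by
      rw [tt_succ]; group
    show a c * tt a b i * (a c)⁻¹ ∈ NN a
    rw [h1]
    exact mul_mem (mul_mem (diff_mem' hk a b c) (tt_mem a b (i + 1)))
      (inv_mem (diff_mem' hk a b c))
  | one => rw [mul_one, mul_inv_cancel]; exact one_mem _
  | mul x y _ _ hx hy =>
    have : a c * (x * y) * (a c)⁻¹ = (a c * x * (a c)⁻¹) * (a c * y * (a c)⁻¹) := by group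
    rw [this]; exact mul_mem hx hy
  | inv x _ hx =>
    have : a c * x⁻¹ * (a c)⁻¹ = (a c * x * (a c)⁻¹)⁻¹ := by group
    rw [this]; exact inv_mem hx

theorem normal_NN (hk : 0 < k) {a : ZMod k → G} (ha : ∀ b, a b ^ 3 = 1)
    (hS : Subgroup.closure (Set.range a) = ⊤) : (NN a).Normal := by
  have key : ∀ g : G, (∀ x ∈ NN a, g * x * g⁻¹ ∈ NN a) ∧ (∀ x ∈ NN a, g⁻¹ * x * g ∈ NN a) := by
    intro g
    have hg : g ∈ Subgroup.closure (Set.range a) := by rw [hS]; trivial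
    induction hg using Subgroup.closure_induction with
    | mem g hg =>
      obtain ⟨c, rfl⟩ := hg
      refine ⟨fun x hx => conj_a_mem hk a c hx, ?_⟩
      intro x hx
      have h1 := conj_a_mem hk a c (conj_a_mem hk a c hx)
      have h2 : a c * (a c * x * (a c)⁻¹) * (a c)⁻¹ = a c * a c * x * (a c * a c)⁻¹ := by group
      rw [h2, ← inv_of_cube (ha c), inv_inv] at h1
      exact h1
    | one => exact ⟨fun x hx => by simpa using hx, fun x hx => by simpa using hx⟩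
    | mul g h _ _ ihg ihh =>
      constructor
      · intro x hx
        have : g * h * x * (g * h)⁻¹ = g * (h * x * h⁻¹) * g⁻¹ := by group
        rw [this]; exact ihg.1 _ (ihh.1 _ hx)
      · intro x hx
        have : (g * h)⁻¹ * x * (g * h) = h⁻¹ * (g⁻¹ * x * g) * h := by group
        rw [this]; exact ihh.2 _ (ihg.2 _ hx)
    | inv g _ ih =>
      exact ⟨fun x hx => by simpa using ih.2 x hx, fun x hx => by simpa using ih.1 x hx⟩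
  exact ⟨fun x hx g => (key g).1 x hx⟩

/-- Homomorphisms from the kernel to a left-ordered group are trivial. -/
theorem hom_trivial (hk : 0 < k) (hk5 : k ≤ 5) {a : ZMod k → G} (ha : ∀ b, a b ^ 3 = 1)
    (hS : Subgroup.closure (Set.range a) = ⊤) (d : G →* Multiplicative (ZMod 3))
    (da : ∀ b, d (a b) = Multiplicative.ofAdd 1) (p : ZMod k → ℕ)
    (hr : ∀ b, (a b * (a (b + 1))⁻¹) ^ (-(p b : ℤ) - 1) * a b *
      (a b * (a (b + 1))⁻¹) ^ ((p b : ℤ) + 1) *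
      ((a (b + 1) * (a (b + 1 + 1))⁻¹) ^ (-(p (b + 1) : ℤ)) * (a (b + 1 + 1))⁻¹ *
        (a (b + 1) * (a (b + 1 + 1))⁻¹) ^ (p (b + 1) : ℤ)) = 1)
    {H : Type*} [Group H] [LinearOrder H] (hinv : ∀ a b c : H, a ≤ b ↔ c * a ≤ c * b)
    (φ : d.ker →* H) (g : d.ker) : φ g = 1 := by
  have hm : ∀ b i, tt a b i ∈ d.ker := by
    intro b i
    show d _ = 1
    unfold tt
    simp [da]
  set T : ZMod k → ℕ → d.ker := fun b i => ⟨tt a b i, hm b i⟩ with hT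
  have R : Rel (fun b => φ (T b 0)) (fun b => φ (T b 1)) (fun b => φ (T b 2))
      (fun b => φ (T b 0) ^ p b) (fun b => φ (T b 1) ^ p b) (fun b => φ (T b 2) ^ p b)
      (fun _ b => p b) (fun _ _ => 1) := by
    refine ⟨?_, fun b => Fol.of_pow _ _, fun b => Fol.of_pow _ _, fun b => Fol.of_pow _ _,
      ?_, ?_⟩
    · intro b
      have e : T b 0 * T b 1 * T b 2 = 1 := by
        apply Subtype.ext
        show tt a b 0 * tt a b 1 * tt a b 2 = 1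
        have := prod_one (ha b) (ha (b + 1))
        unfold tt
        simpa only [pow_zero, pow_one, one_mul, inv_one, mul_one] using this
      show φ (T b 0) * φ (T b 1) * φ (T b 2) = 1
      rw [← map_mul, ← map_mul, e, map_one]
    · intro b
      have e : T (b + 1) 0 ^ p (b + 1) * T (b + 1) 0 * (T (b + 1) 1 ^ p (b + 1))⁻¹ =
          T b 0 ^ p b * T b 0 * (T b 1 ^ p b)⁻¹ * T b 2 := by
        apply Subtype.ext
        show tt a (b + 1) 0 ^ p (b + 1) * tt a (b + 1) 0 * (tt a (b + 1) 1 ^ p (b + 1))⁻¹ =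
          tt a b 0 ^ p b * tt a b 0 * (tt a b 1 ^ p b)⁻¹ * tt a b 2
        have := relA (ha b) (ha (b + 1)) (conj_rel (hr b))
        unfold tt
        simpa only [pow_zero, pow_one, one_mul, inv_one, mul_one] using this
      have := congrArg φ e
      simpa only [map_mul, map_inv, map_pow] using this
    · intro b
      have e : T (b + 1) 1 ^ p (b + 1) * T (b + 1) 1 * (T (b + 1) 2 ^ p (b + 1))⁻¹ =
          T b 0 * (T b 1 ^ p b * T b 1 * (T b 2 ^ p b)⁻¹) := by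
        apply Subtype.ext
        show tt a (b + 1) 1 ^ p (b + 1) * tt a (b + 1) 1 * (tt a (b + 1) 2 ^ p (b + 1))⁻¹ =
          tt a b 0 * (tt a b 1 ^ p b * tt a b 1 * (tt a b 2 ^ p b)⁻¹)
        have := relB (ha b) (ha (b + 1)) (conj_rel (hr b))
        unfold tt
        simpa only [pow_zero, pow_one, one_mul, inv_one, mul_one] using this
      have := congrArg φ e
      simpa only [map_mul, map_inv, map_pow] using this
  have triv := fun b => rel_trivial hinv hk hk5 R b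
  have h2 : ∀ b, φ (T b 2) = 1 := by
    intro b
    have := R.prod b
    simp only [(triv b).1, (triv b).2, one_mul] at this
    exact this
  have h1 : NN a ≤ φ.ker.map d.ker.subtype := by
    unfold NN
    rw [Subgroup.closure_le]
    rintro _ ⟨⟨b, i⟩, rfl⟩
    show tt a b i ∈ _
    rw [tt_three ha]
    have h3 : i % 3 < 3 := Nat.mod_lt _ (by norm_num)
    have h4 : φ (T b (i % 3)) = 1 := by
      generalize i % 3 = j at h3
      interval_cases j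
      · exact (triv b).1
      · exact (triv b).2
      · exact h2 b
    exact ⟨T b (i % 3), h4, rfl⟩
  have hn := normal_NN hk ha hS
  have hN : NN a ≤ d.ker := by
    unfold NN
    rw [Subgroup.closure_le]
    rintro _ ⟨⟨b, i⟩, rfl⟩
    exact hm b i
  have h5 := ker_le_of (NN a) (a 0) (ha 0) hS (by
    rintro _ ⟨c, rfl⟩
    exact diff_mem' hk a 0 c) d hN (da 0)
  obtain ⟨g', hg', hgg⟩ := h1 (h5 g.2)
  have : g' = g := Subtype.ext hgg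
  rw [← this]; exact hg'

end main

end Pool.Agent.TH821.Three
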