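import Pool.Agent.TH821.NegStage

set_option autoImplicit false

/-!
# The periodic chain of stages of the pretzel knots P(3, -(2q+1), 3)

Any period: every point is fixed by all `X j` and `V j`.
-/

namespace Pool.Agent.TH821.Neg

open Pool.Agent.TH821.Hex

variable {Ω : Type*} [CompleteLinearOrder Ω]

/-- The chain; `linkA`, `linkB`, `linkC`, `linkF` say what `A⁻¹`, `B⁻¹`, `C`, `A` become. -/
structure NChain (X V W Q : ℕ → Ω ≃o Ω) : Prop where
  st : ∀ j, NStage (X j) (V j) (W j) (Q j)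
  linkA : ∀ j y, (V (j + 1)).symm ((Q (j + 1)).symm ((X (j + 1)).symm ((X (j + 1)).symm y)))
    = X j ((Q j).symm ((X j).symm ((X j).symm y)))
  linkB : ∀ j y, W (j + 1) (Q (j + 1) y) = W j (Q j ((X j).symm y))
  linkC : ∀ j y, W (j + 1) (W (j + 1) ((X (j + 1)).symm y)) = W j ((X j).symm ((X j).symm y))
  linkF : ∀ j y, X (j + 1) (X (j + 1) (Q (j + 1) (V (j + 1) y)))
    = X j (X j (Q j ((X j).symm y)))

theorem NChain.dual {X V W Q : ℕ → Ω ≃o Ω} (h : NChain X V W Q) :
    NChain (Ω := Ωᵒᵈ) (fun j => (X j).dual) (fun j => (V j).dual) (fun j => (W j).dual)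
      (fun j => (Q j).dual) :=
  ⟨fun j => (h.st j).dual, fun j y => h.linkA j y, fun j y => h.linkB j y,
    fun j y => h.linkC j y, fun j y => h.linkF j y⟩

/-- Period `N`. -/
structure NPer (N : ℕ) (X V W Q : ℕ → Ω ≃o Ω) : Prop where
  X : ∀ j, X (j + N) = X j
  V : ∀ j, V (j + N) = V j
  W : ∀ j, W (j + N) = W j
  Q : ∀ j, Q (j + N) = Q j

theorem NPer.dual {N : ℕ} {X V W Q : ℕ → Ω ≃o Ω} (h : NPer N X V W Q) :
    NPer (Ω := Ωᵒᵈ) N (fun j => (X j).dual) (fun j => (V j).dual) (fun j => (W j).dual)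
      (fun j => (Q j).dual) :=
  ⟨fun j => congrArg OrderIso.dual (h.X j), fun j => congrArg OrderIso.dual (h.V j),
    fun j => congrArg OrderIso.dual (h.W j), fun j => congrArg OrderIso.dual (h.Q j)⟩

section stage
variable {X V W Q : Ω ≃o Ω}

theorem exists_t (X Q : Ω ≃o Ω) (y : Ω) : ∃ t, y = X (X (Q t)) :=
  ⟨Q.symm (X.symm (X.symm y)), by simp⟩

theorem NStage.m3 (h : NStage X V W Q) {y : Ω} (hC : y ≤ W (W (X.symm y)))
    (hD : V.symm (Q.symm (X.symm (X.symm y))) < W (Q y)) : X y < y := by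
  obtain ⟨t, rfl⟩ := exists_t X Q y
  simp only [OrderIso.symm_apply_apply] at hC hD
  exact Neg.m3 h hC hD

theorem NStage.m1 {y : Ω} (hx : X y < y) (hC : y ≤ W (W (X.symm y))) :
    y < W (X.symm (X.symm y)) := by
  obtain ⟨s, rfl⟩ : ∃ s, y = X (X s) := ⟨X.symm (X.symm y), by simp⟩
  simp only [OrderIso.symm_apply_apply] at hC ⊢
  exact Neg.m1 hx hC

theorem NStage.m2 (h : NStage X V W Q) {y : Ω} (hC : y ≤ W (W (X.symm y)))
    (hD : V.symm (Q.symm (X.symm (X.symm y))) < W (Q y)) :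
    X (Q.symm (X.symm (X.symm y))) < W (Q (X.symm y)) := by
  obtain ⟨t, rfl⟩ := exists_t X Q y
  simp only [OrderIso.symm_apply_apply] at hC hD ⊢
  exact Neg.m2 h hC hD

theorem NStage.m4 (h : NStage X V W Q) {y : Ω} (hC : y ≤ W (W (X.symm y)))
    (hC' : W (X.symm (X.symm y)) ≤ y)
    (hD' : X (Q.symm (X.symm (X.symm y))) ≤ W (Q (X.symm y))) : X y = y ∧ V y = y := by
  obtain ⟨t, rfl⟩ := exists_t X Q y
  simp only [OrderIso.symm_apply_apply] at hC hC' hD'
  exact Neg.m4 h hC hC' hD'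

theorem NStage.m5 (h : NStage X V W Q) {y : Ω} (hC : y ≤ W (W (X.symm y)))
    (hC' : y ≤ W (X.symm (X.symm y))) (hE : W (Q (X (Q (X.symm y)))) ≤ y) (hw : W y ≤ y) :
    X y = y ∧ V y = y := by
  obtain ⟨s, rfl⟩ : ∃ s, y = X (X s) := ⟨X.symm (X.symm y), by simp⟩
  simp only [OrderIso.symm_apply_apply] at hC hC' hE
  exact Neg.m5 h hC hC' hE hw

theorem NStage.vw' (h : NStage X V W Q) (y : Ω) : V (W y) = X.symm y := by
  rw [← X.injective.eq_iff, h.prod, X.apply_symm_apply]

theorem NStage.fixW (h : NStage X V W Q) {y : Ω} (hx : X y = y) (hv : V y = y) : W y = y := by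
  have h1 : V (W y) = y := by
    rw [h.vw', OrderIso.symm_apply_eq]; exact hx.symm
  exact V.injective (h1.trans hv.symm)

end stage

section chain
variable {X V W Q : ℕ → Ω ≃o Ω} {N : ℕ}

/-- an increasing sequence is not periodic. -/
theorem no_incr {u : ℕ → Ω} (hN : 0 < N) {i : ℕ} (hp : u (i + N) = u i)
    (h : ∀ j, i ≤ j → u j < u (j + 1)) : False := by
  have key : ∀ k, 0 < k → u i < u (i + k) := by
    intro k hk
    induction k with
    | zero => exact absurd hk (lt_irrefl _)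
    | succ k ih =>
      rcases Nat.eq_zero_or_pos k with rfl | hk'
      · exact h i le_rfl
      · exact (ih hk').trans (h (i + k) (Nat.le_add_right _ _))
  have := key N hN
  rw [hp] at this
  exact lt_irrefl _ this

/-- `C y ≥ y` implies `B⁻¹ y ≤ A⁻¹ y`. -/
theorem NChain.claim (h : NChain X V W Q) (hP : NPer N X V W Q) (hN : 0 < N) (i : ℕ) (y : Ω)
    (hC : y ≤ W i (W i ((X i).symm y))) :
    W i (Q i y) ≤ (V i).symm ((Q i).symm ((X i).symm ((X i).symm y))) := by
  by_contra hD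
  rw [not_le] at hD
  have key : ∀ j, i ≤ j → y ≤ W j (W j ((X j).symm y)) ∧
      (V j).symm ((Q j).symm ((X j).symm ((X j).symm y))) < W j (Q j y) := by
    intro j hj
    induction j, hj using Nat.le_induction with
    | base => exact ⟨hC, hD⟩
    | succ j _ ih =>
      obtain ⟨h1, h2⟩ := ih
      rw [h.linkA, h.linkB, h.linkC]
      exact ⟨(NStage.m1 ((h.st j).m3 h1 h2) h1).le, (h.st j).m2 h1 h2⟩
  refine no_incr (u := fun j => W j (Q j y)) (i := i) hN ?_ ?_
  · show W (i + N) (Q (i + N) y) = W i (Q i y)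
    rw [hP.W, hP.Q]
  · intro j hj
    show W j (Q j y) < W (j + 1) (Q (j + 1) y)
    obtain ⟨h1, h2⟩ := key j hj
    rw [h.linkB]
    apply (W j).lt_iff_lt.mpr
    apply (Q j).lt_iff_lt.mpr
    rw [lt_symm_iff]
    exact (h.st j).m3 h1 h2

theorem NChain.claim' (h : NChain X V W Q) (hP : NPer N X V W Q) (hN : 0 < N) (i : ℕ) (y : Ω)
    (hC : W i (W i ((X i).symm y)) ≤ y) :
    (V i).symm ((Q i).symm ((X i).symm ((X i).symm y))) ≤ W i (Q i y) :=
  NChain.claim (Ω := Ωᵒᵈ) h.dual hP.dual hN i y hC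

/-- if `C y ≥ y` before and `C y ≤ y` after stage `i` then stage `i` fixes `y`. -/
theorem NChain.cross (h : NChain X V W Q) (hP : NPer N X V W Q) (hN : 0 < N) (i : ℕ) (y : Ω)
    (hC : y ≤ W i (W i ((X i).symm y)))
    (hC' : W (i + 1) (W (i + 1) ((X (i + 1)).symm y)) ≤ y) : X i y = y ∧ V i y = y := by
  have h1 := h.claim' hP hN (i + 1) y hC'
  rw [h.linkA, h.linkB] at h1
  rw [h.linkC] at hC'
  exact (h.st i).m4 hC hC' h1

theorem NChain.cross' (h : NChain X V W Q) (hP : NPer N X V W Q) (hN : 0 < N) (i : ℕ) (y : Ω)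
    (hC : W i (W i ((X i).symm y)) ≤ y)
    (hC' : y ≤ W (i + 1) (W (i + 1) ((X (i + 1)).symm y))) : X i y = y ∧ V i y = y :=
  NChain.cross (Ω := Ωᵒᵈ) h.dual hP.dual hN i y hC hC'

/-- if stage `i` fixes `y` then `C y = y` after it. -/
theorem NChain.C_fix (h : NChain X V W Q) (i : ℕ) {y : Ω} (hx : X i y = y) (hv : V i y = y) :
    W (i + 1) (W (i + 1) ((X (i + 1)).symm y)) = y := by
  have hs : (X i).symm y = y := by rw [OrderIso.symm_apply_eq]; exact hx.symm
  rw [h.linkC, hs, hs]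
  exact (h.st i).fixW hx hv

theorem NChain.next_fix (h : NChain X V W Q) (hP : NPer N X V W Q) (hN : 0 < N) (i : ℕ) {y : Ω}
    (hx : X i y = y) (hv : V i y = y) : X (i + 1) y = y ∧ V (i + 1) y = y := by
  have h1 := h.C_fix i hx hv
  rcases le_total y (W (i + 1 + 1) (W (i + 1 + 1) ((X (i + 1 + 1)).symm y))) with h2 | h2
  · exact h.cross' hP hN (i + 1) y h1.le h2
  · exact h.cross hP hN (i + 1) y h1.ge h2

theorem NPer.mulX (hP : NPer N X V W Q) (j : ℕ) : ∀ k, X (j + k * N) = X j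
  | 0 => by simp
  | k + 1 => by rw [Nat.succ_mul, ← Nat.add_assoc, hP.X, hP.mulX j k]

theorem NPer.mulV (hP : NPer N X V W Q) (j : ℕ) : ∀ k, V (j + k * N) = V j
  | 0 => by simp
  | k + 1 => by rw [Nat.succ_mul, ← Nat.add_assoc, hP.V, hP.mulV j k]

theorem NChain.all_fix (h : NChain X V W Q) (hP : NPer N X V W Q) (hN : 0 < N) (i : ℕ) {y : Ω}
    (hx : X i y = y) (hv : V i y = y) (j : ℕ) : X j y = y ∧ V j y = y := by
  have key : ∀ k, i ≤ k → X k y = y ∧ V k y = y := by
    intro k hk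
    induction k, hk using Nat.le_induction with
    | base => exact ⟨hx, hv⟩
    | succ k _ ih => exact h.next_fix hP hN k ih.1 ih.2
  have h1 := key (j + i * N) (by nlinarith)
  rwa [hP.mulX, hP.mulV] at h1

/-- `C y > y` at all times is impossible. -/
theorem NChain.no_up (h : NChain X V W Q) (hP : NPer N X V W Q) (hN : 0 < N) (y : Ω)
    (hC : ∀ i, y < W i (W i ((X i).symm y))) : False := by
  have hA : ∀ i u, (V i).symm ((Q i).symm ((X i).symm ((X i).symm (X i (X i (Q i (V i u)))))))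
      = u := by intro i u; simp
  -- `C = B⁻¹ A⁻¹`
  have hCAB : ∀ i u, W i (W i ((X i).symm u)) =
      W i (Q i ((V i).symm ((Q i).symm ((X i).symm ((X i).symm u))))) := by
    intro i u
    congr 1
    have e1 : Q i ((V i).symm ((Q i).symm ((X i).symm ((X i).symm u)))) =
        (V i).symm ((X i).symm ((X i).symm u)) := by
      rw [← (V i).injective.eq_iff, (h.st i).big.comm, OrderIso.apply_symm_apply,
        OrderIso.apply_symm_apply, OrderIso.apply_symm_apply]
    rw [e1, ← (V i).injective.eq_iff, OrderIso.apply_symm_apply, (h.st i).vw']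
  have hle : ∀ i, W i (Q i (X i (X i (Q i (V i y))))) ≤ y := by
    intro i
    set u := X i (X i (Q i (V i y))) with hu
    rcases le_total u (W i (W i ((X i).symm u))) with h1 | h1
    · have h2 := h.claim hP hN i u h1
      rw [hu, hA] at h2
      exact h2
    · -- `C u ≤ u`
      have h2 := hCAB i u
      rw [hu, hA, ← hu] at h2
      rw [h2] at h1
      -- `B⁻¹ y ≤ A y`
      have h3 := h.claim hP hN i y (hC i).le
      have h4 : y < (V i).symm ((Q i).symm ((X i).symm ((X i).symm y))) := by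
        by_contra h5
        rw [not_lt] at h5
        have h6 : W i (Q i ((V i).symm ((Q i).symm ((X i).symm ((X i).symm y)))))
            ≤ W i (Q i y) := (W i).le_iff_le.mpr ((Q i).le_iff_le.mpr h5)
        have h7 := hC i
        rw [hCAB] at h7
        exact absurd h7 (not_lt.mpr (h6.trans (h3.trans h5)))
      have h8 : u < y := by
        rw [lt_symm_iff, lt_symm_iff, lt_symm_iff, lt_symm_iff] at h4
        exact h4
      have h9 : W i (Q i u) ≤ W i (Q i y) := (W i).le_iff_le.mpr ((Q i).le_iff_le.mpr h8.le)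
      exact (h9.trans h1).trans h8.le
  have hw : ∀ i, y < W i y := by
    intro i
    by_contra h1
    rw [not_lt] at h1
    have h2 := (hC (i + 1)).le
    rw [h.linkC] at h2
    have h3 := hle (i + 1)
    rw [h.linkB, h.linkF, OrderIso.symm_apply_apply] at h3
    obtain ⟨h4, h5⟩ := (h.st i).m5 (hC i).le h2 h3 h1
    have h6 : (X i).symm y = y := by rw [OrderIso.symm_apply_eq]; exact h4.symm
    have h7 := hC i
    rw [h6, (h.st i).fixW h4 h5, (h.st i).fixW h4 h5] at h7
    exact lt_irrefl _ h7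
  refine no_incr (u := fun j => X j (X j (Q j (V j y)))) (i := 0) hN ?_ ?_
  · show X (0 + N) (X (0 + N) (Q (0 + N) (V (0 + N) y))) = X 0 (X 0 (Q 0 (V 0 y)))
    rw [hP.X, hP.Q, hP.V]
  · intro j _
    show X j (X j (Q j (V j y))) < X (j + 1) (X (j + 1) (Q (j + 1) (V (j + 1) y)))
    rw [h.linkF, ← (h.st j).vw']
    apply (X j).lt_iff_lt.mpr
    apply (X j).lt_iff_lt.mpr
    apply (Q j).lt_iff_lt.mpr
    exact (V j).lt_iff_lt.mpr (hw j)

/-- `C y ≥ y` at time `0` implies that `y` is fixed. -/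
theorem NChain.fixed_up (h : NChain X V W Q) (hP : NPer N X V W Q) (hN : 0 < N) (y : Ω)
    (h0 : y ≤ W 0 (W 0 ((X 0).symm y))) (j : ℕ) : X j y = y ∧ V j y = y := by
  by_contra hcon
  have hno : ∀ i, ¬ (X i y = y ∧ V i y = y) := fun i hi =>
    hcon (h.all_fix hP hN i hi.1 hi.2 j)
  have key : ∀ i, y < W (i + 1) (W (i + 1) ((X (i + 1)).symm y)) := by
    intro i
    induction i with
    | zero =>
      by_contra h1
      rw [not_lt] at h1
      exact hno 0 (h.cross hP hN 0 y h0 h1)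
    | succ i ih =>
      by_contra h1
      rw [not_lt] at h1
      exact hno (i + 1) (h.cross hP hN (i + 1) y ih.le h1)
  refine h.no_up hP hN y ?_
  intro i
  obtain ⟨M, rfl⟩ := Nat.exists_eq_add_of_le' hN
  have := key (i + M)
  rw [show i + M + 1 = i + (M + 1) by omega, hP.W, hP.X] at this
  exact this

/-- every point is fixed by all `X j`, `V j`. -/
theorem NChain.fixed (h : NChain X V W Q) (hP : NPer N X V W Q) (hN : 0 < N) (j : ℕ) (y : Ω) :
    X j y = y ∧ V j y = y := by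
  rcases le_total y (W 0 (W 0 ((X 0).symm y))) with h0 | h0
  · exact h.fixed_up hP hN y h0 j
  · exact NChain.fixed_up (Ω := Ωᵒᵈ) h.dual hP.dual hN y h0 j

end chain

end Pool.Agent.TH821.Neg
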