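import Pool.Agent.TH821.NegChain
import Pool.Agent.TH821.HexGroup

set_option autoImplicit false

/-!
# Left-ordered groups and the relations of the pretzel knots P(3, -(2q+1), 3)
-/

namespace Pool.Agent.TH821.Neg

open Pool.Agent.W705.Borr Pool.Agent.TH821.Chain Pool.Agent.TH821.Hex

/-- The relations between the generators `x i, v i, w i` and the elements `q i`. -/
structure NRel {H : Type*} [Group H] {n : ℕ} (x v w q : ZMod n → H)
    (a b : ZMod n → ℕ) : Prop where
  prod : ∀ i, x i * v i * w i = 1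
  comm : ∀ i, v i * q i = q i * v i
  bpos : ∀ i, 0 < b i
  ab : ∀ i, b i ≤ a i
  pow : ∀ i, q i ^ b i = v i ^ a i
  relA : ∀ i, x (i + 1) * x (i + 1) * v (i + 1) * q (i + 1) = x i * x i * v i * q i * w i
  relB : ∀ i, (q (i + 1))⁻¹ * (w (i + 1))⁻¹ = x i * (q i)⁻¹ * (w i)⁻¹

section alg
variable {H : Type*} [Group H] {n : ℕ} {x v w q : ZMod n → H} {a b : ZMod n → ℕ}

theorem NRel.vw (R : NRel x v w q a b) (i : ZMod n) : v i * w i = (x i)⁻¹ := by
  have := R.prod i
  rw [eq_inv_iff_mul_eq_one]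
  calc v i * w i * x i = (x i)⁻¹ * (x i * v i * w i) * x i := by group
    _ = 1 := by rw [this]; group

theorem NRel.A' (R : NRel x v w q a b) (i : ZMod n) :
    x (i + 1) * x (i + 1) * q (i + 1) * v (i + 1) = x i * x i * q i * (x i)⁻¹ := by
  calc x (i + 1) * x (i + 1) * q (i + 1) * v (i + 1)
      = x (i + 1) * x (i + 1) * (q (i + 1) * v (i + 1)) := by group
    _ = x (i + 1) * x (i + 1) * v (i + 1) * q (i + 1) := by rw [← R.comm]; group
    _ = x i * x i * v i * q i * w i := R.relA i
    _ = x i * x i * (v i * q i) * w i := by group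
    _ = x i * x i * q i * (v i * w i) := by rw [R.comm]; group
    _ = _ := by rw [R.vw]

theorem NRel.Ai (R : NRel x v w q a b) (i : ZMod n) :
    (v (i + 1))⁻¹ * (q (i + 1))⁻¹ * (x (i + 1))⁻¹ * (x (i + 1))⁻¹
      = x i * (q i)⁻¹ * (x i)⁻¹ * (x i)⁻¹ := by
  have := congrArg (fun z => z⁻¹) (R.A' i)
  simp only [mul_inv_rev, inv_inv] at this
  simpa only [mul_assoc] using this

theorem NRel.Bi (R : NRel x v w q a b) (i : ZMod n) :
    w (i + 1) * q (i + 1) = w i * q i * (x i)⁻¹ := by
  have := congrArg (fun z => z⁻¹) (R.relB i)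
  simp only [mul_inv_rev, inv_inv] at this
  simpa only [mul_assoc] using this

theorem NRel.Ci (R : NRel x v w q a b) (i : ZMod n) :
    w (i + 1) * w (i + 1) * (x (i + 1))⁻¹ = w i * (x i)⁻¹ * (x i)⁻¹ := by
  have h1 : ∀ j, q j * (v j)⁻¹ * (q j)⁻¹ = w j * x j := by
    intro j
    have h2 : q j * (v j)⁻¹ * (q j)⁻¹ = (v j)⁻¹ := by
      calc q j * (v j)⁻¹ * (q j)⁻¹ = (v j)⁻¹ * (v j * q j) * (v j)⁻¹ * (q j)⁻¹ := by group
        _ = (v j)⁻¹ := by rw [R.comm]; group
    rw [h2]
    calc (v j)⁻¹ = (v j)⁻¹ * (v j * w j) * x j := by rw [R.vw]; group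
      _ = _ := by group
  calc w (i + 1) * w (i + 1) * (x (i + 1))⁻¹
      = w (i + 1) * (w (i + 1) * x (i + 1)) * (x (i + 1))⁻¹ * (x (i + 1))⁻¹ := by group
    _ = (w (i + 1) * q (i + 1)) * ((v (i + 1))⁻¹ * (q (i + 1))⁻¹ * (x (i + 1))⁻¹ *
          (x (i + 1))⁻¹) := by rw [← h1]; group
    _ = w i * (x i)⁻¹ * (x i)⁻¹ := by rw [R.Bi, R.Ai]; group

end alg

section act
variable {H : Type*} [Group H] [LinearOrder H] (hinv : ∀ a b c : H, a ≤ b ↔ c * a ≤ c * b)

theorem iter_mono {Ω : Type*} [CompleteLinearOrder Ω] {g : Ω ≃o Ω} {v : Ω} (h : v ≤ g v)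
    {a b : ℕ} (hab : b ≤ a) : g^[b] v ≤ g^[a] v := by
  obtain ⟨c, rfl⟩ := Nat.exists_eq_add_of_le hab
  rw [Nat.add_comm, Function.iterate_add_apply]
  have h1 : ∀ k, g^[k] v ≤ g (g^[k] v) := by
    intro k
    rw [← Function.iterate_succ_apply' g, Function.iterate_succ_apply]
    exact (g.monotone.iterate k) h
  exact iter_le' (h1 b) c

/-- If `q ^ b = v ^ a`, `0 < b ≤ a`, and `q`, `v` commute, then `q` moves points at least as far
as `v`. -/
theorem up_big {Ω : Type*} [CompleteLinearOrder Ω] {v q : Ω ≃o Ω} {a b : ℕ} (hb : 0 < b)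
    (hab : b ≤ a) (hcomm : ∀ y, v (q y) = q (v y)) (h : ∀ y, q^[b] y = v^[a] y) (y : Ω)
    (hv : y ≤ v y) : v y ≤ q y := by
  by_contra hcon
  rw [not_le] at hcon
  -- then `q^k y < v^k y` for all `k > 0`
  have key : ∀ k, 0 < k → q^[k] y < v^[k] y := by
    intro k hk
    induction k with
    | zero => exact absurd hk (lt_irrefl _)
    | succ k ih =>
      rcases Nat.eq_zero_or_pos k with rfl | hk'
      · exact hcon
      · have h1 := ih hk'
        have h2 : q^[k + 1] y < q (v^[k] y) := by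
          rw [Function.iterate_succ_apply']; exact q.lt_iff_lt.mpr h1
        have hc : Function.Semiconj q (v^[k]) (v^[k]) :=
          Function.Semiconj.iterate_right (fun z => (hcomm z).symm) k
        have h3 : q (v^[k] y) = v^[k] (q y) := hc y
        have h4 : v^[k] (q y) < v^[k] (v y) := by
          exact v.strictMono.iterate k hcon
        rw [Function.iterate_succ_apply v]
        exact (h2.trans_eq h3).trans h4
  have h1 := key b hb
  rw [h] at h1
  exact absurd (iter_mono hv hab) (not_le.mpr h1)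

theorem big_of_pow {v q : H} {a b : ℕ} (hcomm : v * q = q * v) (hb : 0 < b) (hab : b ≤ a)
    (h : q ^ b = v ^ a) : Big (act hinv v) (act hinv q) := by
  have hpow : ∀ y, (act hinv q)^[b] y = (act hinv v)^[a] y := by
    intro y; rw [← act_pow, ← act_pow, h]
  have hc : ∀ y, act hinv v (act hinv q y) = act hinv q (act hinv v y) := by
    intro y; rw [← act_mul, ← act_mul, hcomm]
  refine ⟨hc, up_big hb hab hc hpow, ?_⟩
  exact up_big (Ω := (LowerSet H)ᵒᵈ) (v := (act hinv v).dual) (q := (act hinv q).dual)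
    hb hab (fun y => hc y) (fun y => hpow y)

include hinv in
/-- In a left-ordered group the relations force triviality. -/
theorem rel_trivial {n : ℕ} (hn : 0 < n) {x v w q : ZMod n → H} {a b : ZMod n → ℕ}
    (R : NRel x v w q a b) (i : ZMod n) : x i = 1 ∧ v i = 1 := by
  have : NeZero n := ⟨hn.ne'⟩
  have hN0 : ∀ j : ℕ, ((j + n : ℕ) : ZMod n) = (j : ZMod n) := by
    intro j; push_cast; rw [ZMod.natCast_self, add_zero]
  have hC : NChain (fun j : ℕ => act hinv (x j)) (fun j : ℕ => act hinv (v j))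
      (fun j : ℕ => act hinv (w j)) (fun j : ℕ => act hinv (q j)) := by
    refine ⟨?_, ?_, ?_, ?_, ?_⟩
    · intro j
      refine ⟨?_, big_of_pow hinv (R.comm _) (R.bpos _) (R.ab _) (R.pow _)⟩
      intro u
      rw [← act_mul, ← act_mul, R.prod, act_one]
    · intro j y
      simp only [← act_inv, ← act_mul]
      rw [Nat.cast_add, Nat.cast_one]
      have := R.Ai (j : ZMod n)
      simp only [mul_assoc] at this
      rw [this]
    · intro j y
      simp only [← act_inv, ← act_mul]
      rw [Nat.cast_add, Nat.cast_one]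
      have := R.Bi (j : ZMod n)
      simp only [mul_assoc] at this
      rw [this]
    · intro j y
      simp only [← act_inv, ← act_mul]
      rw [Nat.cast_add, Nat.cast_one]
      have := R.Ci (j : ZMod n)
      simp only [mul_assoc] at this
      rw [this]
    · intro j y
      simp only [← act_inv, ← act_mul]
      rw [Nat.cast_add, Nat.cast_one]
      have := R.A' (j : ZMod n)
      simp only [mul_assoc] at this
      rw [this]
  have hP : NPer n (fun j : ℕ => act hinv (x j)) (fun j : ℕ => act hinv (v j))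
      (fun j : ℕ => act hinv (w j)) (fun j : ℕ => act hinv (q j)) := by
    refine ⟨?_, ?_, ?_, ?_⟩ <;> intro j <;> simp only [hN0]
  have hi : ((i.val : ℕ) : ZMod n) = i := ZMod.natCast_zmod_val i
  constructor
  · apply eq_one_of_act hinv
    intro y
    have := (hC.fixed hP hn i.val y).1
    simp only [hi] at this
    exact this
  · apply eq_one_of_act hinv
    intro y
    have := (hC.fixed hP hn i.val y).2
    simp only [hi] at this
    exact this

end act

section kernel
open Pool.Agent.TH821.Cyc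
variable {G : Type*} [Group G] {n : ℕ}

/-- Homomorphisms from the kernel of `d` to a left-ordered group are trivial. -/
theorem hom_trivial (hn : 0 < n) {s X V : G} (hs : s ^ n = 1)
    (hgen : ∀ K : Subgroup G, s ∈ K → X ∈ K → V ∈ K → K = ⊤)
    (d : G →* Multiplicative (ZMod n)) (ds : d s = Multiplicative.ofAdd 1) (dX : d X = 1)
    (dV : d V = 1) (k : ℕ) (hk : 0 < k)
    (A : s * (X * X * V * V ^ k) * s⁻¹ = X * X * V * V ^ k * (X * V)⁻¹)
    (B : s * ((V ^ k)⁻¹ * ((X * V)⁻¹)⁻¹) * s⁻¹ = X * (V ^ k)⁻¹ * ((X * V)⁻¹)⁻¹)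
    {H : Type*} [Group H] [LinearOrder H] (hinv : ∀ a b c : H, a ≤ b ↔ c * a ≤ c * b)
    (φ : d.ker →* H) (g : d.ker) : φ g = 1 := by
  set X' : d.ker := ⟨X, dX⟩ with hX'
  set V' : d.ker := ⟨V, dV⟩ with hV'
  set W' : d.ker := (X' * V')⁻¹ with hW'
  have key : ∀ (i : ZMod n) (x y : d.ker), s * x.1 * s⁻¹ = y.1 →
      φ (ck d s (i + 1) x) = φ (ck d s i y) := by
    intro i x y hxy
    congr 1
    apply Subtype.ext
    show cj s x.1 (i + 1) = cj s y.1 i
    rw [cj_shift hn hs, hxy]
  have R : NRel (fun i => φ (ck d s i X')) (fun i => φ (ck d s i V')) (fun i => φ (ck d s i W'))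
      (fun i => φ (ck d s i V') ^ k) (fun _ => k) (fun _ => 1) := by
    refine ⟨?_, ?_, ?_, ?_, ?_, ?_, ?_⟩
    · intro i
      show φ (ck d s i X') * φ (ck d s i V') * φ (ck d s i W') = 1
      rw [← map_mul, ← map_mul, ← map_mul, ← map_mul, hW', mul_inv_cancel, map_one, map_one]
    · intro i; exact (pow_succ' _ k).symm.trans (pow_succ _ k)
    · intro i; exact one_pos
    · intro i; exact hk
    · intro i; exact pow_one _
    · intro i
      have := key i (X' * X' * V' * V' ^ k) (X' * X' * V' * V' ^ k * W') A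
      simpa only [map_mul, map_inv, map_pow] using this
    · intro i
      have := key i ((V' ^ k)⁻¹ * W'⁻¹) (X' * (V' ^ k)⁻¹ * W'⁻¹) B
      simpa only [map_mul, map_inv, map_pow] using this
  have triv := fun i => rel_trivial hinv hn R i
  have h1 : N n s X V ≤ φ.ker.map d.ker.subtype := by
    unfold N
    rw [Subgroup.closure_le]
    rintro _ (⟨i, rfl⟩ | ⟨i, rfl⟩)
    · exact ⟨ck d s i X', (triv i).1, rfl⟩
    · exact ⟨ck d s i V', (triv i).2, rfl⟩
  obtain ⟨g', hg', hgg⟩ := h1 (ker_le hn hs hgen d ds dX dV g.2)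
  have : g' = g := Subtype.ext hgg
  rw [← this]; exact hg'

end kernel

end Pool.Agent.TH821.Neg
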