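import Pool.Agent.TH821.HexStage

set_option autoImplicit false

/-!
# One stage of the chain of the pretzel knots P(3, -(2q+1), 3)

`X, V, W` are order automorphisms of a complete linear order with `X V W = 1`, and `Q` (the
`q`-th power of `V`) commutes with `V` and moves every point at least as far as `V`.
For a point `t` put `s = Q t`, `z = X s`, `y = X z`.  With `A = X² V Q`, `B⁻¹ = W Q`,
`C = W² X⁻¹` before and `A' = X² Q X⁻¹`, `B'⁻¹ = W Q X⁻¹`, `C' = W X⁻²` after the stage:

`A⁻¹ y = V⁻¹ t`, `B⁻¹ y = W Q y`, `C y = W W z`, `A'⁻¹ y = X t`, `B'⁻¹ y = W Q z`, `C' y = W s`.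
-/

namespace Pool.Agent.TH821.Neg

open Pool.Agent.TH821.Hex

variable {Ω : Type*} [CompleteLinearOrder Ω]

/-- `Q` commutes with `V` and moves every point in the same direction, at least as far. -/
structure Big (V Q : Ω ≃o Ω) : Prop where
  comm : ∀ v, V (Q v) = Q (V v)
  up : ∀ v, v ≤ V v → V v ≤ Q v
  down : ∀ v, V v ≤ v → Q v ≤ V v

/-- One stage. -/
structure NStage (X V W Q : Ω ≃o Ω) : Prop where
  prod : ∀ v, X (V (W v)) = v
  big : Big V Q

theorem Big.dual {V Q : Ω ≃o Ω} (h : Big V Q) : Big (Ω := Ωᵒᵈ) V.dual Q.dual :=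
  ⟨fun v => h.comm v, fun v hv => h.down v hv, fun v hv => h.up v hv⟩

theorem NStage.dual {X V W Q : Ω ≃o Ω} (h : NStage X V W Q) :
    NStage (Ω := Ωᵒᵈ) X.dual V.dual W.dual Q.dual :=
  ⟨fun v => h.prod v, h.big.dual⟩

theorem Big.fix {V Q : Ω ≃o Ω} (h : Big V Q) {v : Ω} (hv : V v = v) : Q v = v :=
  le_antisymm ((h.down v hv.le).trans hv.le) (hv.ge.trans (h.up v hv.ge))

section stage
variable {X V W Q : Ω ≃o Ω}

theorem NStage.vw (h : NStage X V W Q) (v : Ω) : V (W (X v)) = v :=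
  X.injective (h.prod (X v))

/-- If `y ≤ W W z` and `z ≤ y` then `y ≤ W y` and `z ≤ W z`. -/
theorem w_up {z y : Ω} (hC : y ≤ W (W z)) (hzy : z ≤ y) : y ≤ W y ∧ z ≤ W z := by
  constructor
  · by_contra h1
    rw [not_le] at h1
    have h2 : W (W z) ≤ W (W y) := W.le_iff_le.mpr (W.le_iff_le.mpr hzy)
    have h3 : W (W y) < W y := W.lt_iff_lt.mpr h1
    exact absurd hC (not_le.mpr (lt_of_le_of_lt h2 (h3.trans h1)))
  · by_contra h1
    rw [not_le] at h1
    have h3 : W (W z) < W z := W.lt_iff_lt.mpr h1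
    exact absurd hC (not_le.mpr ((h3.trans h1).trans_le hzy))

/-- `y < z < s` when `X` is down at `y = X z = X X s`. -/
theorem x_down {s : Ω} (hx : X (X (X s)) < X (X s)) : X (X s) < X s ∧ X s < s :=
  ⟨X.lt_iff_lt.mp hx, X.lt_iff_lt.mp (X.lt_iff_lt.mp hx)⟩

/-- If `X` is up at `y` then `V` is not up at `t`. -/
theorem v_t (h : NStage X V W Q) {t : Ω} (hx : X (X (Q t)) ≤ X (X (X (Q t))))
    (hC : X (X (Q t)) ≤ W (W (X (Q t)))) : V t ≤ t := by
  have hzy : X (Q t) ≤ X (X (Q t)) := X.le_iff_le.mp hx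
  have hsz : Q t ≤ X (Q t) := X.le_iff_le.mp hzy
  obtain ⟨_, h2⟩ := w_up hC hzy
  by_contra h1
  rw [not_le] at h1
  have e : V (W (X (Q t))) = Q t := h.vw _
  have h3 : t < Q t := lt_of_lt_of_le h1 (h.big.up t h1.le)
  have h4 : t ≤ W (X (Q t)) := (h3.le.trans hsz).trans h2
  have h5 : V (W (X (Q t))) ≤ W (X (Q t)) := by rw [e]; exact hsz.trans h2
  obtain ⟨n, n1, n2, n3⟩ := fixUD V h4 h1 h5
  have h6 : Q t < n := by
    have := Q.lt_iff_lt.mpr n1
    rwa [h.big.fix n3] at this
  have h7 : n ≤ Q t := by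
    have := V.le_iff_le.mpr n2
    rwa [n3, e] at this
  exact absurd h6 (not_lt.mpr h7)

/-- `C ≥ 0` and `B⁻¹ y > A⁻¹ y` imply `X y < y`. -/
theorem m3 (h : NStage X V W Q) {t : Ω} (hC : X (X (Q t)) ≤ W (W (X (Q t))))
    (hD : V.symm t < W (Q (X (X (Q t))))) : X (X (X (Q t))) < X (X (Q t)) := by
  by_contra hx
  rw [not_lt] at hx
  have hzy : X (Q t) ≤ X (X (Q t)) := X.le_iff_le.mp hx
  obtain ⟨h1, h2⟩ := w_up hC hzy
  have h3 : V (X (X (Q t))) ≤ X (Q t) := by
    have := V.le_iff_le.mpr h1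
    rwa [h.vw] at this
  have h4 : Q (X (X (Q t))) ≤ X (Q t) := (h.big.down _ (h3.trans hzy)).trans h3
  have h5 := v_t h hx hC
  have h6 : Q t ≤ t := (h.big.down t h5).trans h5
  have h7 : W (X (Q t)) ≤ V.symm t := by
    rw [le_symm_iff, h.vw]; exact h6
  exact absurd hD (not_lt.mpr ((W.le_iff_le.mpr h4).trans h7))

/-- `X y < y` and `C ≥ 0` imply `C' > 0`. -/
theorem m1 {s : Ω} (hx : X (X (X s)) < X (X s)) (hC : X (X s) ≤ W (W (X s))) :
    X (X s) < W s := by
  obtain ⟨h1, h2⟩ := x_down hx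
  by_contra hcon
  rw [not_lt] at hcon
  have h3 : W (X s) < W s := W.lt_iff_lt.mpr h2
  have h4 : W (X s) < X s := (h3.trans_le hcon).trans h1
  have h5 : W (W (X s)) < W (X s) := W.lt_iff_lt.mpr h4
  exact absurd hC (not_le.mpr ((h5.trans h3).trans_le hcon))

/-- `C ≥ 0` and `B⁻¹ y > A⁻¹ y` imply `B'⁻¹ y > A'⁻¹ y`. -/
theorem m2 (h : NStage X V W Q) {t : Ω} (hC : X (X (Q t)) ≤ W (W (X (Q t))))
    (hD : V.symm t < W (Q (X (X (Q t))))) : X t < W (Q (X (Q t))) := by
  have hx := m3 h hC hD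
  obtain ⟨hyz, hzs⟩ := x_down hx
  have hu : W (X t) = V.symm t := by
    rw [← V.injective.eq_iff, h.vw, V.apply_symm_apply]
  rcases le_or_gt (X t) (V.symm t) with c1 | c1
  · have h1 : W (Q (X (X (Q t)))) < W (Q (X (Q t))) := W.lt_iff_lt.mpr (Q.lt_iff_lt.mpr hyz)
    exact lt_of_le_of_lt c1 (hD.trans h1)
  · rcases le_or_gt (V t) t with hv | hv
    · exfalso
      have h1 : t ≤ V.symm t := (le_symm_iff V).mpr hv
      have h2 : Q t ≤ t := (h.big.down t hv).trans hv
      have h3 : W (Q (X (X (Q t)))) < W (Q t) := by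
        apply W.lt_iff_lt.mpr
        apply Q.lt_iff_lt.mpr
        exact lt_of_lt_of_le (hyz.trans hzs) h2
      have h4 : W (Q t) < V.symm t := by
        rw [lt_symm_iff]
        have h5 : Q t < X t := lt_of_le_of_lt (h2.trans h1) c1
        rw [← X.lt_iff_lt, h.prod]
        exact h5
      exact absurd hD (not_lt.mpr (h3.trans h4).le)
    · have hts : t < Q t := lt_of_lt_of_le hv (h.big.up t hv.le)
      -- a fixed point of `V` above `t` is above `Q t`
      have hfix : ∀ n, t < n → V n = n → Q t < n := by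
        intro n n1 n2
        have := Q.lt_iff_lt.mpr n1
        rwa [h.big.fix n2] at this
      have hz : X (Q t) ≤ V (X (Q t)) := by
        by_contra hcon
        rw [not_le] at hcon
        have h1 : X (Q t) < W (X (X (Q t))) := by
          rw [← V.lt_iff_lt, h.vw]; exact hcon
        have h2 : X t < X (Q t) := X.lt_iff_lt.mpr hts
        have h3 : X t < X (X (Q t)) := by
          by_contra h4
          rw [not_lt] at h4
          have h5 : W (X t) ≤ X t := by rw [hu]; exact c1.le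
          obtain ⟨o, o1, o2, o3⟩ := fixUD W h4 (hyz.trans h1) h5
          have h6 : W (X (X (Q t))) < o := by
            have := W.lt_iff_lt.mpr o1
            rwa [o3] at this
          exact absurd (h6.trans_le o2) (not_lt.mpr (h2.trans h1).le)
        have h4 : t < X (Q t) := X.lt_iff_lt.mp h3
        obtain ⟨n, n1, n2, n3⟩ := fixUD V h4.le hv hcon.le
        exact absurd ((hfix n n1 n3).trans_le n2) (not_lt.mpr hzs.le)
      have hzq : V (X (Q t)) ≤ Q (X (Q t)) := h.big.up _ hz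
      rcases le_or_gt (X t) t with hxt | hxt
      · -- `X V X t < Q z`
        suffices hs : X (V (X t)) < Q (X (Q t)) by
          have e : X (V (W (Q (X (Q t))))) = Q (X (Q t)) := h.prod _
          rw [← e] at hs
          exact V.lt_iff_lt.mp (X.lt_iff_lt.mp hs)
        have h1 : X (V (X t)) ≤ X (V t) := X.le_iff_le.mpr (V.le_iff_le.mpr hxt)
        have h2 : X (V t) ≤ X (Q t) := X.le_iff_le.mpr (h.big.up t hv.le)
        rcases hz.eq_or_lt with h3 | h3
        · -- `V z = z`
          have h4 : X (Q t) ≤ t := by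
            by_contra h5
            rw [not_le] at h5
            exact absurd (hfix _ h5 h3.symm) (not_lt.mpr hzs.le)
          have h5 : X t < t := lt_of_lt_of_le (X.lt_iff_lt.mpr hts) h4
          have h6 : X (V (X t)) < X (V t) := X.lt_iff_lt.mpr (V.lt_iff_lt.mpr h5)
          exact (h6.trans_le h2).trans_le (hz.trans hzq)
        · exact lt_of_le_of_lt (h1.trans h2) (h3.trans_le hzq)
      · obtain ⟨r, r1, r2, r3⟩ := fixUD X hts.le hxt hzs.le
        have h1 : r ≤ X (X (Q t)) := by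
          have := X.le_iff_le.mpr (X.le_iff_le.mpr r2)
          rwa [r3, r3] at this
        have h2 : X t < W (X (Q t)) := by
          by_contra h3
          rw [not_lt] at h3
          have h4 : W (W (X (Q t))) ≤ V.symm t := by
            rw [← hu]; exact W.le_iff_le.mpr h3
          have h5 : V.symm t < t := (symm_lt_iff' V).mpr hv
          exact absurd hC (not_le.mpr (lt_of_le_of_lt h4 (h5.trans (r1.trans_le h1))))
        exact lt_of_lt_of_le h2 (W.le_iff_le.mpr (hz.trans hzq))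

/-- `C ≥ 0`, `C' ≤ 0` and `B'⁻¹ y ≥ A'⁻¹ y` only if everything is fixed. -/
theorem m4 (h : NStage X V W Q) {t : Ω} (hC : X (X (Q t)) ≤ W (W (X (Q t))))
    (hC' : W (Q t) ≤ X (X (Q t))) (hD' : X t ≤ W (Q (X (Q t)))) :
    X (X (X (Q t))) = X (X (Q t)) ∧ V (X (X (Q t))) = X (X (Q t)) := by
  have hx : X (X (Q t)) ≤ X (X (X (Q t))) := by
    by_contra h1
    rw [not_le] at h1
    exact absurd (m1 h1 hC) (not_lt.mpr hC')
  have hzy : X (Q t) ≤ X (X (Q t)) := X.le_iff_le.mp hx
  have hsz : Q t ≤ X (Q t) := X.le_iff_le.mp hzy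
  rcases hzy.eq_or_lt with h0 | h0
  · -- `z = y`
    have e1 : Q t = X (Q t) := X.injective h0
    have e2 : X (X (Q t)) = Q t := h0.symm.trans e1.symm
    have hw : W (Q t) = Q t := by
      rw [e2] at hC hC'
      rw [← e1] at hC
      apply le_antisymm hC'
      by_contra h1
      rw [not_le] at h1
      exact absurd hC (not_le.mpr ((W.lt_iff_lt.mpr h1).trans h1))
    have hv : V (Q t) = Q t := by
      have := h.vw (Q t)
      rw [← e1, hw] at this
      exact this
    rw [e2, ← e1]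
    exact ⟨rfl, hv⟩
  · exfalso
    have h2 : X (Q t) < W (X (Q t)) := by
      by_contra h3
      rw [not_lt] at h3
      have h4 : W (W (X (Q t))) ≤ W (X (Q t)) := W.le_iff_le.mpr h3
      exact absurd hC (not_le.mpr (lt_of_le_of_lt (h4.trans h3) h0))
    have h3 : V (X (Q t)) < Q t := by
      have := V.lt_iff_lt.mpr h2
      rwa [h.vw] at this
    have h4 : Q (X (Q t)) < Q t :=
      lt_of_le_of_lt (h.big.down _ (h3.le.trans hsz)) h3
    have h5 : X t < X (X (Q t)) :=
      lt_of_le_of_lt hD' ((W.lt_iff_lt.mpr h4).trans_le hC')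
    have h6 : t < X (Q t) := X.lt_iff_lt.mp h5
    have h7 := v_t h hx hC
    have h8 : V t < Q t := (V.lt_iff_lt.mpr h6).trans h3
    exact absurd (h.big.down t h7) (not_le.mpr h8)

/-- `C ≥ 0`, `C' ≥ 0` and `A' y ≤ B' y` imply `y < W y` unless everything is fixed. -/
theorem m5 (h : NStage X V W Q) {s : Ω} (hC : X (X s) ≤ W (W (X s)))
    (hC' : X (X s) ≤ W s) (hE : W (Q (X (Q (X s)))) ≤ X (X s))
    (hw : W (X (X s)) ≤ X (X s)) :
    X (X (X s)) = X (X s) ∧ V (X (X s)) = X (X s) := by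
  have hyz : X (X s) ≤ X s := by
    by_contra h1
    rw [not_le] at h1
    have h2 : W (W (X s)) < W (W (X (X s))) := W.lt_iff_lt.mpr (W.lt_iff_lt.mpr h1)
    have h3 : W (W (X (X s))) ≤ W (X (X s)) := W.le_iff_le.mpr hw
    exact absurd hC (not_le.mpr (lt_of_lt_of_le h2 (h3.trans hw)))
  rcases hyz.eq_or_lt with h0 | h0
  · have e1 : X s = s := X.injective h0
    rw [e1, e1] at hw hC' ⊢
    rw [e1]
    have h1 : W s = s := le_antisymm hw hC'
    have h2 : V s = s := by
      have := h.vw s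
      rwa [e1, h1] at this
    exact ⟨rfl, h2⟩
  · exfalso
    have hzs : X s < s := X.lt_iff_lt.mp h0
    have h1 : X s ≤ V (X (X s)) := by
      have := V.le_iff_le.mpr hw
      rwa [h.vw] at this
    have hvy : X (X s) < V (X (X s)) := h0.trans_le h1
    have hvz : X s < V (X s) := lt_of_le_of_lt h1 (V.lt_iff_lt.mpr h0)
    have hqz : V (X s) ≤ Q (X s) := h.big.up _ hvz.le
    -- `u = X Q z`
    have hwu : X s ≤ W (X (Q (X s))) := by
      rw [← V.le_iff_le, h.vw]; exact hqz
    have hqu : Q (X (Q (X s))) < X (Q (X s)) := by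
      rw [← W.lt_iff_lt]
      exact lt_of_le_of_lt hE (h0.trans_le hwu)
    have hvu : V (X (Q (X s))) < X (Q (X s)) := by
      by_contra h2
      rw [not_lt] at h2
      exact absurd (h2.trans (h.big.up _ h2)) (not_le.mpr hqu)
    have hyu : X (X s) < X (Q (X s)) := by
      rw [← W.lt_iff_lt]
      exact lt_of_le_of_lt hw (h0.trans_le hwu)
    obtain ⟨n, n1, n2, n3⟩ := fixUD V hyu.le hvy hvu.le
    have h2 : V (X (X s)) < n := by
      have := V.lt_iff_lt.mpr n1
      rwa [n3] at this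
    have h3 : X s < n := lt_of_le_of_lt h1 h2
    have h4 : Q (X s) < n := by
      have := Q.lt_iff_lt.mpr h3
      rwa [h.big.fix n3] at this
    have h5 : n ≤ Q (X (Q (X s))) := by
      have := Q.le_iff_le.mpr n2
      rwa [h.big.fix n3] at this
    have h6 : s < n := by
      by_contra h7
      rw [not_lt] at h7
      obtain ⟨r, r1, r2, r3⟩ := fixUD X (h4.le.trans h7) (h4.trans_le n2) hzs.le
      have h8 : r ≤ X s := by
        have := X.le_iff_le.mpr r2
        rwa [r3] at this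
      exact absurd (r1.trans_le h8) (not_lt.mpr (hvz.le.trans hqz))
    have h7 : W s < W n := W.lt_iff_lt.mpr h6
    exact absurd hC' (not_le.mpr ((h7.trans_le (W.le_iff_le.mpr h5)).trans_le hE))

end stage

end Pool.Agent.TH821.Neg
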